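import Pool.Agent.W_MP_55e37b_an.Defs

set_option autoImplicit false

/-!
# MP_55e37b_an : one side of a helicoid

`Hel n = {x ∈ ℝⁿ : x_1 cos x_2 > x_0 sin x_2}` (`n ≥ 3`).

* open: clear.  Connected: it is the image of the convex set `{y : y_1 > 0}` under the continuous map `y ↦ x`, `x_0 = y_0 cos y_2 - y_1 sin y_2`,
  `x_1 = y_0 sin y_2 + y_1 cos y_2`, `x_i = y_i` for `i ≥ 2` (for this `x`: `x_1 cos x_2 - x_0 sin x_2 = y_1`; conversely `y_0 = x_0 cos x_2 + x_1 sin x_2`, `y_1 = x_1 cos x_2 - x_0 sin x_2`).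
* not convex: the points `(0, 1, 0, 0, ..)` and `(0, -1, π, 0, ..)` are in the set, their midpoint `(0, 0, π / 2, 0, ..)` is not.
* `hel_isom`: let `x` be in the set, `y` a nearest point of the complement (a closed nonempty set, `IsClosed.exists_infDist_eq_dist`).  It is enough that `y_1 cos y_2 = y_0 sin y_2`
  (if `<`, move `y` towards `x`: on the segment from `y` to `x` there is a zero of the continuous function `f z = z_1 cos z_2 - z_0 sin z_2`, since `f y ≤ 0 < f x`; this zero is in the complement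
  and nearer to `x` than `y` unless it is `y`).  Let `θ = y_2` and let `T` be the isometry `(x_0, x_1, x_2, x_i) ↦ (x_0 cos 2θ + x_1 sin 2θ, x_0 sin 2θ - x_1 cos 2θ, 2θ - x_2, x_i)`.
  It is an involution, `T y = y` (as `(y_0, y_1)` is a multiple of `(cos θ, sin θ)`), and `f (T z) = - f z`; so `T '' Ω` is `{f < 0}`, disjoint from `Ω`, and
  `dist x (T x) ≤ dist x y + dist (T y) (T x) = 2 dist x y`.
-/

open MeasureTheory Metric Set Filter Topology

namespace HMor

/-- One side of the helicoid. -/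
def Hel (n : ℕ) (hn : 3 ≤ n) : Set (E n) :=
  {x | x ⟨0, by omega⟩ * Real.sin (x ⟨2, by omega⟩) < x ⟨1, by omega⟩ * Real.cos (x ⟨2, by omega⟩)}

/-- the first index -/
def Helicoid_i0 {n : ℕ} (hn : 3 ≤ n) : Fin n := ⟨0, by omega⟩

/-- the second index -/
def Helicoid_i1 {n : ℕ} (hn : 3 ≤ n) : Fin n := ⟨1, by omega⟩

/-- the third index -/
def Helicoid_i2 {n : ℕ} (hn : 3 ≤ n) : Fin n := ⟨2, by omega⟩

theorem Helicoid_ne01 {n : ℕ} (hn : 3 ≤ n) : Helicoid_i0 hn ≠ Helicoid_i1 hn := by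
  simp [Helicoid_i0, Helicoid_i1]

theorem Helicoid_ne02 {n : ℕ} (hn : 3 ≤ n) : Helicoid_i0 hn ≠ Helicoid_i2 hn := by
  simp [Helicoid_i0, Helicoid_i2]

theorem Helicoid_ne12 {n : ℕ} (hn : 3 ≤ n) : Helicoid_i1 hn ≠ Helicoid_i2 hn := by
  simp [Helicoid_i1, Helicoid_i2]

/-- the defining function -/
noncomputable def Helicoid_f {n : ℕ} (hn : 3 ≤ n) (x : E n) : ℝ :=
  x (Helicoid_i1 hn) * Real.cos (x (Helicoid_i2 hn)) -
    x (Helicoid_i0 hn) * Real.sin (x (Helicoid_i2 hn))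

theorem Helicoid_mem {n : ℕ} (hn : 3 ≤ n) (x : E n) : x ∈ Hel n hn ↔ 0 < Helicoid_f hn x := by
  unfold Helicoid_f
  rw [sub_pos]
  rfl

theorem Helicoid_cont {n : ℕ} (hn : 3 ≤ n) : Continuous (Helicoid_f hn) := by
  unfold Helicoid_f
  fun_prop

/-- the vector with prescribed first three coordinates -/
noncomputable def Helicoid_v {n : ℕ} (hn : 3 ≤ n) (a b c : ℝ) (x : E n) : E n :=
  WithLp.toLp 2 fun i => if i = Helicoid_i0 hn then a else if i = Helicoid_i1 hn then b else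
    if i = Helicoid_i2 hn then c else x i

theorem Helicoid_v0 {n : ℕ} (hn : 3 ≤ n) (a b c : ℝ) (x : E n) :
    Helicoid_v hn a b c x (Helicoid_i0 hn) = a := by
  simp [Helicoid_v]

theorem Helicoid_v1 {n : ℕ} (hn : 3 ≤ n) (a b c : ℝ) (x : E n) :
    Helicoid_v hn a b c x (Helicoid_i1 hn) = b := by
  simp [Helicoid_v, (Helicoid_ne01 hn).symm]

theorem Helicoid_v2 {n : ℕ} (hn : 3 ≤ n) (a b c : ℝ) (x : E n) :
    Helicoid_v hn a b c x (Helicoid_i2 hn) = c := by
  simp [Helicoid_v, (Helicoid_ne02 hn).symm, (Helicoid_ne12 hn).symm]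

theorem Helicoid_v3 {n : ℕ} (hn : 3 ≤ n) (a b c : ℝ) (x : E n) (i : Fin n)
    (h0 : i ≠ Helicoid_i0 hn) (h1 : i ≠ Helicoid_i1 hn) (h2 : i ≠ Helicoid_i2 hn) :
    Helicoid_v hn a b c x i = x i := by
  simp [Helicoid_v, h0, h1, h2]

theorem Helicoid_ext {n : ℕ} (hn : 3 ≤ n) {x y : E n} (h0 : x (Helicoid_i0 hn) = y (Helicoid_i0 hn))
    (h1 : x (Helicoid_i1 hn) = y (Helicoid_i1 hn)) (h2 : x (Helicoid_i2 hn) = y (Helicoid_i2 hn))
    (h3 : ∀ i, i ≠ Helicoid_i0 hn → i ≠ Helicoid_i1 hn → i ≠ Helicoid_i2 hn → x i = y i) :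
    x = y := by
  ext i
  by_cases e0 : i = Helicoid_i0 hn
  · rw [e0, h0]
  by_cases e1 : i = Helicoid_i1 hn
  · rw [e1, h1]
  by_cases e2 : i = Helicoid_i2 hn
  · rw [e2, h2]
  exact h3 i e0 e1 e2

theorem Helicoid_sum {n : ℕ} (hn : 3 ≤ n) (h : Fin n → ℝ) :
    ∑ i, h i = h (Helicoid_i0 hn) + h (Helicoid_i1 hn) + h (Helicoid_i2 hn) +
      ∑ i ∈ (((Finset.univ : Finset (Fin n)).erase (Helicoid_i0 hn)).erase (Helicoid_i1 hn)).erase
        (Helicoid_i2 hn), h i := by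
  have m0 : Helicoid_i0 hn ∈ (Finset.univ : Finset (Fin n)) := Finset.mem_univ _
  have m1 : Helicoid_i1 hn ∈ (Finset.univ : Finset (Fin n)).erase (Helicoid_i0 hn) :=
    Finset.mem_erase.2 ⟨(Helicoid_ne01 hn).symm, Finset.mem_univ _⟩
  have m2 : Helicoid_i2 hn ∈
      ((Finset.univ : Finset (Fin n)).erase (Helicoid_i0 hn)).erase (Helicoid_i1 hn) :=
    Finset.mem_erase.2 ⟨(Helicoid_ne12 hn).symm,
      Finset.mem_erase.2 ⟨(Helicoid_ne02 hn).symm, Finset.mem_univ _⟩⟩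
  rw [← Finset.add_sum_erase _ h m0, ← Finset.add_sum_erase _ h m1, ← Finset.add_sum_erase _ h m2]
  ring

/-- the reflection -/
noncomputable def Helicoid_T {n : ℕ} (hn : 3 ≤ n) (t : ℝ) (x : E n) : E n :=
  Helicoid_v hn
    (x (Helicoid_i0 hn) * Real.cos (2 * t) + x (Helicoid_i1 hn) * Real.sin (2 * t))
    (x (Helicoid_i0 hn) * Real.sin (2 * t) - x (Helicoid_i1 hn) * Real.cos (2 * t))
    (2 * t - x (Helicoid_i2 hn)) x

theorem Helicoid_T_invol {n : ℕ} (hn : 3 ≤ n) (t : ℝ) : Function.Involutive (Helicoid_T hn t) := by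
  intro x
  have hcs := Real.cos_sq_add_sin_sq (2 * t)
  refine Helicoid_ext hn ?_ ?_ ?_ fun i e0 e1 e2 => ?_
  · unfold Helicoid_T
    rw [Helicoid_v0, Helicoid_v0, Helicoid_v1]
    linear_combination x (Helicoid_i0 hn) * hcs
  · unfold Helicoid_T
    rw [Helicoid_v1, Helicoid_v0, Helicoid_v1]
    linear_combination x (Helicoid_i1 hn) * hcs
  · unfold Helicoid_T
    rw [Helicoid_v2, Helicoid_v2]
    ring
  · unfold Helicoid_T
    rw [Helicoid_v3 hn _ _ _ _ i e0 e1 e2, Helicoid_v3 hn _ _ _ _ i e0 e1 e2]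

theorem Helicoid_T_isometry {n : ℕ} (hn : 3 ≤ n) (t : ℝ) : Isometry (Helicoid_T hn t) := by
  refine Isometry.of_dist_eq fun x y => ?_
  rw [EuclideanSpace.dist_eq, EuclideanSpace.dist_eq]
  congr 1
  rw [Helicoid_sum hn, Helicoid_sum hn]
  have hcs := Real.cos_sq_add_sin_sq (2 * t)
  congr 1
  · simp only [Real.dist_eq, sq_abs]
    unfold Helicoid_T
    rw [Helicoid_v0, Helicoid_v1, Helicoid_v2, Helicoid_v0, Helicoid_v1, Helicoid_v2]
    linear_combination ((x (Helicoid_i0 hn) - y (Helicoid_i0 hn)) ^ 2 +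
      (x (Helicoid_i1 hn) - y (Helicoid_i1 hn)) ^ 2) * hcs
  · refine Finset.sum_congr rfl fun i hi => ?_
    rw [Finset.mem_erase, Finset.mem_erase, Finset.mem_erase] at hi
    unfold Helicoid_T
    rw [Helicoid_v3 hn _ _ _ _ i hi.2.2.1 hi.2.1 hi.1, Helicoid_v3 hn _ _ _ _ i hi.2.2.1 hi.2.1 hi.1]

theorem Helicoid_f_T {n : ℕ} (hn : 3 ≤ n) (t : ℝ) (x : E n) :
    Helicoid_f hn (Helicoid_T hn t x) = -Helicoid_f hn x := by
  unfold Helicoid_f Helicoid_T
  rw [Helicoid_v0, Helicoid_v1, Helicoid_v2, Real.cos_sub, Real.sin_sub]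
  have hcs := Real.cos_sq_add_sin_sq (2 * t)
  linear_combination (x (Helicoid_i0 hn) * Real.sin (x (Helicoid_i2 hn)) -
    x (Helicoid_i1 hn) * Real.cos (x (Helicoid_i2 hn))) * hcs

theorem Helicoid_T_fix {n : ℕ} (hn : 3 ≤ n) (y : E n) (hy : Helicoid_f hn y = 0) :
    Helicoid_T hn (y (Helicoid_i2 hn)) y = y := by
  have hcs := Real.cos_sq_add_sin_sq (y (Helicoid_i2 hn))
  unfold Helicoid_f at hy
  refine Helicoid_ext hn ?_ ?_ ?_ fun i e0 e1 e2 => ?_
  · unfold Helicoid_T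
    rw [Helicoid_v0, Real.cos_two_mul, Real.sin_two_mul]
    linear_combination 2 * Real.sin (y (Helicoid_i2 hn)) * hy + 2 * y (Helicoid_i0 hn) * hcs
  · unfold Helicoid_T
    rw [Helicoid_v1, Real.cos_two_mul, Real.sin_two_mul]
    linear_combination (-2 * Real.cos (y (Helicoid_i2 hn))) * hy
  · unfold Helicoid_T
    rw [Helicoid_v2]
    ring
  · unfold Helicoid_T
    rw [Helicoid_v3 hn _ _ _ _ i e0 e1 e2]

theorem hel_open (n : ℕ) (hn : 3 ≤ n) : IsOpen (Hel n hn) := by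
  have h : Hel n hn = {x | 0 < Helicoid_f hn x} := Set.ext fun x => Helicoid_mem hn x
  rw [h]
  exact isOpen_lt continuous_const (Helicoid_cont hn)

theorem hel_connected (n : ℕ) (hn : 3 ≤ n) : IsConnected (Hel n hn) := by
  have hc : Convex ℝ {y : E n | 0 < y (Helicoid_i1 hn)} :=
    (convex_Ioi (0 : ℝ)).linear_preimage
      (EuclideanSpace.proj (Helicoid_i1 hn) : E n →L[ℝ] ℝ).toLinearMap
  have hne : {y : E n | 0 < y (Helicoid_i1 hn)}.Nonempty :=
    ⟨Helicoid_v hn 0 1 0 0, by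
      show 0 < Helicoid_v hn 0 1 0 0 (Helicoid_i1 hn)
      rw [Helicoid_v1]
      exact one_pos⟩
  have hconn : IsConnected {y : E n | 0 < y (Helicoid_i1 hn)} := ⟨hne, hc.isPreconnected⟩
  let g : E n → E n := fun y => Helicoid_v hn
    (y (Helicoid_i0 hn) * Real.cos (y (Helicoid_i2 hn)) -
      y (Helicoid_i1 hn) * Real.sin (y (Helicoid_i2 hn)))
    (y (Helicoid_i0 hn) * Real.sin (y (Helicoid_i2 hn)) +
      y (Helicoid_i1 hn) * Real.cos (y (Helicoid_i2 hn)))
    (y (Helicoid_i2 hn)) y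
  have hg : Continuous g := by
    refine (PiLp.continuous_toLp 2 _).comp (continuous_pi fun i => ?_)
    by_cases e0 : i = Helicoid_i0 hn
    · simp only [e0, if_true]
      fun_prop
    by_cases e1 : i = Helicoid_i1 hn
    · simp only [e1, (Helicoid_ne01 hn).symm, if_false, if_true]
      fun_prop
    by_cases e2 : i = Helicoid_i2 hn
    · simp only [e2, (Helicoid_ne02 hn).symm, (Helicoid_ne12 hn).symm, if_false, if_true]
      fun_prop
    · simp only [e0, e1, e2, if_false]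
      fun_prop
  have himg : g '' {y : E n | 0 < y (Helicoid_i1 hn)} = Hel n hn := by
    ext x
    rw [Helicoid_mem]
    constructor
    · rintro ⟨y, hy, rfl⟩
      have hy' : 0 < y (Helicoid_i1 hn) := hy
      have h1 : Helicoid_f hn (g y) = y (Helicoid_i1 hn) := by
        show Helicoid_f hn (Helicoid_v hn _ _ _ y) = _
        unfold Helicoid_f
        rw [Helicoid_v0, Helicoid_v1, Helicoid_v2]
        linear_combination y (Helicoid_i1 hn) * Real.cos_sq_add_sin_sq (y (Helicoid_i2 hn))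
      rw [h1]
      exact hy'
    · intro hx
      have hcs := Real.cos_sq_add_sin_sq (x (Helicoid_i2 hn))
      refine ⟨Helicoid_v hn (x (Helicoid_i0 hn) * Real.cos (x (Helicoid_i2 hn)) +
        x (Helicoid_i1 hn) * Real.sin (x (Helicoid_i2 hn)))
        (x (Helicoid_i1 hn) * Real.cos (x (Helicoid_i2 hn)) -
        x (Helicoid_i0 hn) * Real.sin (x (Helicoid_i2 hn))) (x (Helicoid_i2 hn)) x, ?_, ?_⟩
      · show 0 < Helicoid_v hn _ _ _ x (Helicoid_i1 hn)
        rw [Helicoid_v1]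
        exact hx
      · refine Helicoid_ext hn ?_ ?_ ?_ fun i e0 e1 e2 => ?_
        · show Helicoid_v hn _ _ _ _ (Helicoid_i0 hn) = _
          rw [Helicoid_v0, Helicoid_v0, Helicoid_v1, Helicoid_v2]
          linear_combination x (Helicoid_i0 hn) * hcs
        · show Helicoid_v hn _ _ _ _ (Helicoid_i1 hn) = _
          rw [Helicoid_v1, Helicoid_v0, Helicoid_v1, Helicoid_v2]
          linear_combination x (Helicoid_i1 hn) * hcs
        · show Helicoid_v hn _ _ _ _ (Helicoid_i2 hn) = _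
          rw [Helicoid_v2, Helicoid_v2]
        · show Helicoid_v hn _ _ _ _ i = _
          rw [Helicoid_v3 hn _ _ _ _ i e0 e1 e2, Helicoid_v3 hn _ _ _ _ i e0 e1 e2]
  rw [← himg]
  exact hconn.image g hg.continuousOn

theorem hel_not_convex (n : ℕ) (hn : 3 ≤ n) : ¬ Convex ℝ (Hel n hn) := by
  intro h
  have ha : Helicoid_v hn 0 1 0 0 ∈ Hel n hn := by
    rw [Helicoid_mem]
    unfold Helicoid_f
    rw [Helicoid_v0, Helicoid_v1, Helicoid_v2, Real.cos_zero]
    norm_num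
  have hb : Helicoid_v hn 0 (-1) Real.pi 0 ∈ Hel n hn := by
    rw [Helicoid_mem]
    unfold Helicoid_f
    rw [Helicoid_v0, Helicoid_v1, Helicoid_v2, Real.cos_pi]
    norm_num
  have hm := h ha hb (show (0 : ℝ) ≤ 1 / 2 by norm_num) (show (0 : ℝ) ≤ 1 / 2 by norm_num)
    (by norm_num)
  rw [Helicoid_mem] at hm
  have h0 : Helicoid_f hn ((1 / 2 : ℝ) • Helicoid_v hn 0 1 0 0 +
      (1 / 2 : ℝ) • Helicoid_v hn 0 (-1) Real.pi 0) = 0 := by
    unfold Helicoid_f
    simp only [PiLp.add_apply, PiLp.smul_apply, Helicoid_v0, Helicoid_v1, smul_eq_mul]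
    ring
  rw [h0] at hm
  exact lt_irrefl _ hm

theorem hel_isom (n : ℕ) (hn : 3 ≤ n) (x : E n) (hx : x ∈ Hel n hn) :
    ∃ T : E n ≃ᵢ E n, Disjoint (T '' Hel n hn) (Hel n hn) ∧
      dist x (T x) ≤ 2 * infDist x (Hel n hn)ᶜ := by
  have hC : IsClosed (Hel n hn)ᶜ := (hel_open n hn).isClosed_compl
  have hx' : 0 < Helicoid_f hn x := (Helicoid_mem hn x).1 hx
  have hne : (Hel n hn)ᶜ.Nonempty := by
    refine ⟨Helicoid_v hn 0 0 0 0, fun h => ?_⟩
    rw [Helicoid_mem] at h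
    unfold Helicoid_f at h
    rw [Helicoid_v0, Helicoid_v1] at h
    simp at h
  obtain ⟨y, hyC, hy⟩ := hC.exists_infDist_eq_dist hne x
  have hy0 : Helicoid_f hn y ≤ 0 := by
    by_contra hcon
    exact hyC ((Helicoid_mem hn y).2 (not_le.1 hcon))
  have hxy : x ≠ y := by
    rintro rfl
    exact hyC hx
  have hfy : Helicoid_f hn y = 0 := by
    by_contra hne0
    have hlt : Helicoid_f hn y < 0 := lt_of_le_of_ne hy0 hne0
    have hcont : Continuous fun t : ℝ => Helicoid_f hn (AffineMap.lineMap y x t) :=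
      (Helicoid_cont hn).comp AffineMap.lineMap_continuous
    have hivt := intermediate_value_Icc (zero_le_one' ℝ) hcont.continuousOn
    have h0 : (0 : ℝ) ∈ Set.Icc (Helicoid_f hn (AffineMap.lineMap y x (0 : ℝ)))
        (Helicoid_f hn (AffineMap.lineMap y x (1 : ℝ))) := by
      rw [AffineMap.lineMap_apply_zero, AffineMap.lineMap_apply_one]
      exact ⟨hy0, hx'.le⟩
    obtain ⟨t, ht, hft⟩ := hivt h0
    have hft' : Helicoid_f hn (AffineMap.lineMap y x t) = 0 := hft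
    have ht0 : 0 < t := by
      rcases eq_or_lt_of_le ht.1 with h | h
      · rw [← h, AffineMap.lineMap_apply_zero] at hft'
        exact absurd hft' hne0
      · exact h
    have hzC : AffineMap.lineMap y x t ∈ (Hel n hn)ᶜ := by
      intro h
      rw [Helicoid_mem, hft'] at h
      exact lt_irrefl _ h
    have h1 := infDist_le_dist_of_mem (x := x) hzC
    rw [hy, dist_right_lineMap, Real.norm_eq_abs, abs_of_nonneg (by linarith [ht.2]),
      dist_comm y x] at h1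
    have h2 : 0 < dist x y := dist_pos.2 hxy
    nlinarith
  let T : E n ≃ᵢ E n :=
    ⟨(Helicoid_T_invol hn (y (Helicoid_i2 hn))).toPerm, Helicoid_T_isometry hn _⟩
  have hT : ∀ z, T z = Helicoid_T hn (y (Helicoid_i2 hn)) z := fun z => rfl
  refine ⟨T, ?_, ?_⟩
  · rw [Set.disjoint_left]
    rintro _ ⟨z, hz, rfl⟩ hz2
    rw [Helicoid_mem] at hz hz2
    rw [hT, Helicoid_f_T] at hz2
    linarith
  · have h1 : T y = y := by rw [hT, Helicoid_T_fix hn y hfy]
    have h2 : dist y (T x) = dist y x := by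
      conv_lhs => rw [← h1]
      exact T.dist_eq y x
    have h3 := dist_triangle x y (T x)
    rw [h2, dist_comm y x] at h3
    rw [hy]
    linarith

end HMor
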