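import Pool.Agent.W_MP_55e37b_an.Sim
import Pool.Agent.W_MP_55e37b_an.PosPart

set_option autoImplicit false

/-!
# MP_55e37b_an : `u - u ∘ T⁻¹` for an isometry `T` with `T(Ω)` disjoint from `Ω`

Every isometry is `T⁻¹ x = b + A x` with a linear isometry `A` (`IsometryEquiv.toRealAffineIsometryEquiv`), so `u ∘ T⁻¹` has the weak gradient
`x ↦ A.symm (g (T⁻¹ x))` (`IsD.comp_sim` with `t = 1`, `energy_comp_sim`).  Where `u ≠ 0` we have `x ∈ Ω`, so `T⁻¹ x ∉ Ω` (otherwise `x ∈ T '' Ω`) and `u (T⁻¹ x) = 0`; by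
`WG.ae_zero` almost everywhere at most one of the two gradients is not zero, so the energy of the difference is the sum of the energies (`integral_add`, `IsD.integrable_rpow`).
-/

open MeasureTheory Metric Set Filter Topology
open scoped ENNReal

namespace HMor

theorem exists_diff {n : ℕ} {p : ℝ} (hp : 1 < p) {Ω : Set (E n)} {u : E n → ℝ} {g : E n → E n}
    (hu : IsD0 p Ω u g) (T : E n ≃ᵢ E n) (hT : Disjoint (T '' Ω) Ω) :
    ∃ G : E n → E n, IsD p (fun x => u x - u (T.symm x)) G ∧ energy p G = 2 * energy p g := by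
  have hp1 : 1 ≤ p := hp.le
  have hp0 : 0 < p := lt_trans zero_lt_one hp
  set A : E n ≃ₗᵢ[ℝ] E n := T.symm.toRealLinearIsometryEquiv with hA
  set b : E n := T.symm 0 with hb
  have hT' : ∀ x, b + (1 : ℝ) • A x = T.symm x := by
    intro x
    have h1 : A x = T.symm x - T.symm 0 := T.symm.toRealLinearIsometryEquiv_apply x
    rw [one_smul, h1, hb]
    abel
  have h2 := hu.isD.comp_sim hp1 A b one_pos
  have h3 : energy p (fun x => (1 : ℝ) • A.symm (g (b + (1 : ℝ) • A x))) = energy p g := by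
    rw [energy_comp_sim p g A b one_pos, Real.one_rpow, one_mul]
  set g' : E n → E n := fun x => (1 : ℝ) • A.symm (g (b + (1 : ℝ) • A x)) with hg'
  have h4 : (fun x => u (b + (1 : ℝ) • A x)) = fun x => u (T.symm x) := by
    funext x
    rw [hT']
  rw [h4] at h2
  refine ⟨fun x => g x - g' x, hu.isD.sub hp1 h2, ?_⟩
  have h5 : ∀ᵐ x, ‖g x - g' x‖ ^ p = ‖g x‖ ^ p + ‖g' x‖ ^ p := by
    filter_upwards [(hu.isD.wg hp1).ae_zero, (h2.wg hp1).ae_zero] with x hx hx'
    by_cases hux : u x = 0
    · rw [hx hux, zero_sub, norm_neg, norm_zero, Real.zero_rpow hp0.ne', zero_add]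
    · have hxΩ : x ∈ Ω := by
        by_contra hcon
        exact hux (hu.zero x hcon)
      have hTx : T.symm x ∉ Ω := by
        intro hcon
        have h6 : x ∈ T '' Ω := ⟨T.symm x, hcon, T.apply_symm_apply x⟩
        exact Set.disjoint_left.1 hT h6 hxΩ
      rw [hx' (hu.zero _ hTx), sub_zero, norm_zero, Real.zero_rpow hp0.ne', add_zero]
  have h6 : energy p (fun x => g x - g' x) = energy p g + energy p g' := by
    unfold energy
    rw [← integral_add (hu.isD.integrable_rpow hp0) (h2.integrable_rpow hp0)]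
    exact integral_congr_ae h5
  rw [h6, h3]
  ring

end HMor
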