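import Pool.Agent.W_MP_55e37b_an.Final

set_option autoImplicit false

/-!
# MP_55e37b_an : `λ_p(Ω) ≤ λ_p(ℝⁿ₊)` for every open set `Ω`

PROOF (compare `touching` in `W_MP_55e37b_an/Final.lean` and `core` in `Core.lean`).  Choose `x₀ ∈ Ω` and a nearest point `y` of the complement, `d = |x₀ - y|`,
`ν = (x₀ - y) / d`; the ball `B(x₀, d)` is in `Ω`.  It suffices to show `lam p Ω ≤ ENNReal.ofReal (cH p ν + ε)` for all `ε > 0` (`lam_halfspace`, `cH_eq`).
Let `(h, gh)` be the minimiser of the halfspace `halfspace ν 0` with pole `ν` (`exists_min`, as in `core`; its energy is at most `cH p ν`) and `(v, gv)` the function of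
`IsMin.cutoff` for a large `L`: it vanishes off `halfspace ν 0 ∩ ball 0 L`, `v ν = 1`, `energy p gv ≤ cH p ν + ε / 2`.
For `s > 0` small and `t > 0` small with respect to `s` and `L` put `u x = v (-(t⁻¹ • y) - s • ν + t⁻¹ • x)` (`IsD.comp_sim`, `energy_comp_sim`).
If `u x ≠ 0` then `x = y + t • (z + s • ν)` with `z · ν > 0`, `|z| < L`, so `|x - x₀|² = |t (z + s ν) - d ν|² < d²` as soon as `t (L + s)² < 2 d s`, so `x ∈ Ω`.
`u (x₁) = 1` for `x₁ = y + t (1 + s) • ν`, the distance of `x₁` to the complement of `Ω` is at most `t (1 + s)`.  So by `lam_le` and `ratio_le`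
`lam p Ω ≤ ofReal ((t (1 + s)) ^ (p - n) * t ^ (n - p) * energy p gv) = ofReal ((1 + s) ^ (p - n) * energy p gv)`, and this is at most `ofReal (cH p ν + ε)` if `s` is small.
-/

open MeasureTheory Metric Set Filter Topology
open scoped ENNReal

namespace HMor

/-- a compactly supported competitor of the halfspace, almost optimal -/
theorem LamLe_cutoff {n : ℕ} (hn : 2 ≤ n) {p : ℝ} (hp : (n : ℝ) < p) {ν : E n} (hν : ‖ν‖ = 1)
    {ε : ℝ} (hε : 0 < ε) :
    ∃ L : ℝ, 0 < L ∧ ∃ (v : E n → ℝ) (gv : E n → E n),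
      IsD0 p (halfspace ν 0 ∩ ball 0 L) v gv ∧ v ν = 1 ∧ energy p gv ≤ cH p ν + ε := by
  have hn1 : 1 ≤ n := by omega
  have hn2 : (2 : ℝ) ≤ n := by exact_mod_cast hn
  have hp2 : 2 < p := by linarith
  have hee : inner ℝ ν ν = (1 : ℝ) := by rw [real_inner_self_eq_norm_sq, hν]; norm_num
  have hHo : IsOpen (halfspace ν 0) := isOpen_lt continuous_const (by fun_prop)
  have h0H : (0 : E n) ∉ halfspace ν 0 := by simp [halfspace]
  have hHu : halfspace ν 0 ≠ univ := fun h => h0H (h ▸ mem_univ _)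
  have heH : ν ∈ halfspace ν 0 := by show (0:ℝ) < inner ℝ ν ν; rw [hee]; norm_num
  obtain ⟨h, gh, hmin, hbd⟩ := exists_min hn1 hp hp2.le hHo hHu heH
  have hEH : energy p gh ≤ cH p ν := by
    apply le_csInf (cH_nonempty hν)
    rintro c ⟨u, g, hu, hu1, rfl⟩
    exact hmin.le u g hu hu1
  obtain ⟨C, hC, hcut⟩ := hmin.cutoff hn hp hν hbd
  set q := p - n + p * (((n : ℝ) - 1) / (p - 1)) with hq
  have hq0 : 0 < q := by
    have h1 : 0 ≤ p * (((n : ℝ) - 1) / (p - 1)) :=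
      mul_nonneg (by linarith) (div_nonneg (by linarith) (by linarith))
    linarith
  have h1 : Tendsto (fun L : ℝ => C * L ^ (-q)) atTop (𝓝 (C * 0)) :=
    (tendsto_rpow_neg_atTop hq0).const_mul C
  rw [mul_zero] at h1
  obtain ⟨L, hL1, hL2⟩ := ((h1.eventually (gt_mem_nhds hε)).and (eventually_ge_atTop 8)).exists
  obtain ⟨v, gv, hv, hv1, hvE⟩ := hcut L hL2
  exact ⟨L, by linarith, v, gv, hv, hv1, by linarith⟩

theorem LamLe_s {c ε a : ℝ} (hε : 0 < ε) :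
    ∃ s : ℝ, 0 < s ∧ (1 + s) ^ a * (c + ε / 2) ≤ c + ε := by
  have h1 : Tendsto (fun s : ℝ => (1 + s) ^ a * (c + ε / 2)) (𝓝[>] 0) (𝓝 (c + ε / 2)) := by
    have h2 : ContinuousAt (fun s : ℝ => (1 + s) ^ a * (c + ε / 2)) 0 := by
      refine ContinuousAt.mul ?_ continuousAt_const
      exact ContinuousAt.rpow_const (by fun_prop) (Or.inl (by norm_num))
    have h3 : Tendsto (fun s : ℝ => (1 + s) ^ a * (c + ε / 2)) (𝓝 0)
        (𝓝 ((1 + 0) ^ a * (c + ε / 2))) := h2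
    rw [add_zero, Real.one_rpow, one_mul] at h3
    exact h3.mono_left nhdsWithin_le_nhds
  obtain ⟨s, hs1, hs2⟩ := ((h1.eventually (gt_mem_nhds (show c + ε / 2 < c + ε by linarith))).and
    self_mem_nhdsWithin).exists
  exact ⟨s, hs2, hs1.le⟩

theorem LamLe_eps {n : ℕ} (hn : 2 ≤ n) {p : ℝ} (hp : (n : ℝ) < p)
    {Ω : Set (E n)} (hΩ : IsOpen Ω) {x₀ y ν : E n} {d : ℝ} (hd : 0 < d) (hν : ‖ν‖ = 1)
    (hx₀ : x₀ = y + d • ν) (hy : y ∉ Ω) (hball : ball x₀ d ⊆ Ω) {ε : ℝ} (hε : 0 < ε) :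
    lam p Ω ≤ ENNReal.ofReal (cH p ν + ε) := by
  have hn1 : 1 ≤ n := by omega
  have hn2 : (2 : ℝ) ≤ n := by exact_mod_cast hn
  have hp1 : 1 < p := by linarith
  have hΩu : Ω ≠ univ := fun hh => hy (hh ▸ mem_univ _)
  have hee : inner ℝ ν ν = (1 : ℝ) := by rw [real_inner_self_eq_norm_sq, hν]; norm_num
  obtain ⟨L, hL, v, gv, hv, hv1, hvE⟩ := LamLe_cutoff hn hp hν (half_pos hε)
  obtain ⟨s, hs, hsE⟩ := LamLe_s (c := cH p ν) (a := p - n) hε
  obtain ⟨t, ht, htE⟩ : ∃ t : ℝ, 0 < t ∧ t * (L + s) ^ 2 < 2 * d * s := by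
    refine ⟨d * s / (L + s) ^ 2, by positivity, ?_⟩
    rw [div_mul_cancel₀ _ (by positivity)]
    nlinarith [mul_pos hd hs]
  have hti : 0 < t⁻¹ := inv_pos.2 ht
  set A : E n ≃ₗᵢ[ℝ] E n := LinearIsometryEquiv.refl ℝ (E n) with hA
  set b : E n := -(t⁻¹ • y) - s • ν with hb
  have hD := hv.isD.comp_sim hp1.le A b hti
  have hEn := energy_comp_sim p gv A b hti
  set g' : E n → E n := fun x => t⁻¹ • A.symm (gv (b + t⁻¹ • A x)) with hg'
  have hu' : IsD0 p Ω (fun x => v (b + t⁻¹ • A x)) g' := by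
    refine ⟨hD, fun x hx => ?_⟩
    apply hv.zero
    intro hmem
    apply hx
    apply hball
    obtain ⟨h1, h2⟩ := hmem
    set z : E n := b + t⁻¹ • A x with hz
    have hAx : A x = x := rfl
    have hxz : x = y + t • (z + s • ν) := by
      rw [hz, hb, hAx]
      simp only [smul_add, smul_sub, smul_neg, smul_smul, mul_inv_cancel₀ ht.ne', one_smul]
      abel
    have h3 : (0 : ℝ) < inner ℝ z ν := h1
    have h4 : ‖z‖ < L := by simpa using h2
    have h5 : x - x₀ = t • (z + s • ν) - d • ν := by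
      rw [hxz, hx₀]; abel
    have h6 : ‖z + s • ν‖ ≤ L + s := by
      refine (norm_add_le _ _).trans ?_
      rw [norm_smul, hν, Real.norm_eq_abs, abs_of_pos hs, mul_one]
      linarith
    have h7 : ‖x - x₀‖ ^ 2 = t ^ 2 * ‖z + s • ν‖ ^ 2 - 2 * (t * d * (inner ℝ z ν + s)) + d ^ 2 := by
      rw [h5, @norm_sub_sq_real, norm_smul, norm_smul, hν, real_inner_smul_left,
        real_inner_smul_right, inner_add_left, real_inner_smul_left, hee, Real.norm_eq_abs,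
        Real.norm_eq_abs, abs_of_pos ht, abs_of_pos hd]
      ring
    have h8 : ‖x - x₀‖ ^ 2 < d ^ 2 := by
      have h9 : ‖z + s • ν‖ ^ 2 ≤ (L + s) ^ 2 := pow_le_pow_left₀ (norm_nonneg _) h6 2
      have h10 : t ^ 2 * ‖z + s • ν‖ ^ 2 ≤ t * (t * (L + s) ^ 2) := by
        have := mul_le_mul_of_nonneg_left h9 (sq_nonneg t)
        calc t ^ 2 * ‖z + s • ν‖ ^ 2 ≤ t ^ 2 * (L + s) ^ 2 := this
          _ = t * (t * (L + s) ^ 2) := by ring
      have h11 : t * (t * (L + s) ^ 2) < t * (2 * d * s) := mul_lt_mul_of_pos_left htE ht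
      have h12 : 0 < t * d * inner ℝ z ν := mul_pos (mul_pos ht hd) h3
      rw [h7]
      nlinarith
    rw [mem_ball, dist_eq_norm]
    exact lt_of_pow_lt_pow_left₀ 2 hd.le h8
  set x₁ : E n := y + (t * (1 + s)) • ν with hx₁
  have hx₁s : b + t⁻¹ • A x₁ = ν := by
    have hAx : A x₁ = x₁ := rfl
    rw [hAx, hx₁, hb, smul_add, smul_smul, ← mul_assoc, inv_mul_cancel₀ ht.ne', one_mul, add_smul,
      one_smul]
    abel
  have hux₁ : v (b + t⁻¹ • A x₁) = 1 := by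
    rw [hx₁s, hv1]
  have hx₁Ω : x₁ ∈ Ω := by
    by_contra hcon
    have := hu'.zero x₁ hcon
    rw [hux₁] at this
    exact one_ne_zero this
  have hne : (fun x => v (b + t⁻¹ • A x)) ≠ 0 := by
    intro hh
    have h0 : v (b + t⁻¹ • A x₁) = 0 := congrFun hh x₁
    rw [hux₁] at h0
    exact one_ne_zero h0
  have h1 := lam_le hu' hne
  have h2 := ratio_le hn1 hp hΩ hΩu hu' hx₁Ω (by rw [hux₁]; exact one_ne_zero)
  rw [hux₁, abs_one, Real.one_rpow, div_one, hEn] at h2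
  have hts : 0 < t * (1 + s) := by positivity
  have hdist : infDist x₁ Ωᶜ ≤ t * (1 + s) := by
    refine (infDist_le_dist_of_mem (show y ∈ Ωᶜ from hy)).trans ?_
    rw [dist_eq_norm, hx₁, add_sub_cancel_left, norm_smul, hν, mul_one, Real.norm_eq_abs,
      abs_of_pos hts]
  refine h1.trans (h2.trans (ENNReal.ofReal_le_ofReal ?_))
  have h4 : (infDist x₁ Ωᶜ) ^ (p - n) ≤ (t * (1 + s)) ^ (p - n) :=
    Real.rpow_le_rpow infDist_nonneg hdist (by linarith)
  have h5 : 0 ≤ t⁻¹ ^ (p - n) * energy p gv :=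
    mul_nonneg (Real.rpow_nonneg hti.le _) (energy_nonneg p gv)
  calc (infDist x₁ Ωᶜ) ^ (p - n) * (t⁻¹ ^ (p - n) * energy p gv)
      ≤ (t * (1 + s)) ^ (p - n) * (t⁻¹ ^ (p - n) * energy p gv) := mul_le_mul_of_nonneg_right h4 h5
    _ = (t⁻¹ * (t * (1 + s))) ^ (p - n) * energy p gv := by
        rw [Real.mul_rpow hti.le hts.le]; ring
    _ = (1 + s) ^ (p - n) * energy p gv := by
        rw [← mul_assoc, inv_mul_cancel₀ ht.ne', one_mul]
    _ ≤ (1 + s) ^ (p - n) * (cH p ν + ε / 2) :=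
        mul_le_mul_of_nonneg_left hvE (Real.rpow_nonneg (by positivity) _)
    _ ≤ cH p ν + ε := hsE

theorem lam_le_halfspace {n : ℕ} (hn : 2 ≤ n) {p : ℝ} (hp : (n : ℝ) < p) {e : E n} (he : ‖e‖ = 1)
    {Ω : Set (E n)} (hΩ : IsOpen Ω) (hne : Ω.Nonempty) (hΩ' : Ω ≠ univ) :
    lam p Ω ≤ lam p (halfspace e 0) := by
  have hn1 : 1 ≤ n := by omega
  obtain ⟨x₀, hx₀⟩ := hne
  have hcne : (Ωᶜ).Nonempty := nonempty_compl.2 hΩ'
  obtain ⟨y, hy, hxy⟩ := (hΩ.isClosed_compl).exists_infDist_eq_dist hcne x₀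
  set d := dist x₀ y with hd
  have hd0 : 0 < d := by
    rw [hd, dist_pos]
    rintro rfl
    exact hy hx₀
  set ν : E n := d⁻¹ • (x₀ - y) with hν
  have hxyn : ‖x₀ - y‖ = d := by rw [hd, dist_eq_norm]
  have hν1 : ‖ν‖ = 1 := by
    rw [hν, norm_smul, hxyn, Real.norm_eq_abs, abs_of_pos (inv_pos.2 hd0), inv_mul_cancel₀ hd0.ne']
  have hx₀y : x₀ = y + d • ν := by
    rw [hν, smul_smul, mul_inv_cancel₀ hd0.ne', one_smul]
    abel
  have hball : ball x₀ d ⊆ Ω := by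
    intro x hx
    by_contra hcon
    have h1 : infDist x₀ Ωᶜ ≤ dist x₀ x := infDist_le_dist_of_mem (show x ∈ Ωᶜ from hcon)
    rw [hxy] at h1
    rw [mem_ball, dist_comm] at hx
    exact absurd hx (not_lt.2 h1)
  rw [lam_halfspace hn1 hp he, cH_eq hn1 hp he hν1]
  have h1 : Tendsto (fun ε : ℝ => ENNReal.ofReal (cH p ν + ε)) (𝓝[>] 0)
      (𝓝 (ENNReal.ofReal (cH p ν))) := by
    have h2 : Tendsto (fun ε : ℝ => ENNReal.ofReal (cH p ν + ε)) (𝓝 0)
        (𝓝 (ENNReal.ofReal (cH p ν + 0))) :=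
      (ENNReal.continuous_ofReal.comp (continuous_const.add continuous_id)).tendsto 0
    rw [add_zero] at h2
    exact h2.mono_left nhdsWithin_le_nhds
  refine ge_of_tendsto h1 ?_
  filter_upwards [self_mem_nhdsWithin] with ε hε
  exact LamLe_eps hn hp hΩ hd0 hν1 hx₀y hy hball hε

end HMor
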