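import Pool.Agent.W_55e37b_h14.TwoPoint
import Pool.Agent.W_55e37b_h14.Disj
import Pool.Agent.W_55e37b_h14.LamLe

set_option autoImplicit false

/-!
# MP_55e37b_an : open sets which have disjoint congruent copies
-/

open MeasureTheory Metric Set Filter Topology
open scoped ENNReal

namespace HMor

variable {n : ℕ}

theorem iso_bisector {a a' : E n} (haa : a ≠ a') :
    {x : E n | dist x a < dist x a'} =
      halfspace (‖a - a'‖⁻¹ • (a - a')) (‖a - a'‖⁻¹ * ((‖a‖ ^ 2 - ‖a'‖ ^ 2) / 2)) := by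
  have h0 : 0 < ‖a - a'‖ := norm_pos_iff.2 (sub_ne_zero.2 haa)
  ext x
  simp only [mem_ofPred_eq, halfspace]
  rw [real_inner_smul_right, mul_lt_mul_iff_right₀ (inv_pos.2 h0), inner_sub_right, dist_eq_norm,
    dist_eq_norm, ← sq_lt_sq₀ (norm_nonneg _) (norm_nonneg _), @norm_sub_sq_real,
    @norm_sub_sq_real]
  constructor <;> intro h <;> linarith

theorem iso_halfspace_convex (ν : E n) (c : ℝ) : Convex ℝ (halfspace ν c) := by
  have h : halfspace ν c = {x : E n | c < innerSL ℝ ν x} := by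
    ext x
    simp only [halfspace, mem_ofPred_eq, innerSL_apply_apply, real_inner_comm]
  rw [h]
  exact convex_halfSpace_gt (innerSL ℝ ν).isLinear c

/-- the values of `u - u ∘ T⁻¹` -/
theorem iso_values {Ω : Set (E n)} {u : E n → ℝ} (hu : ∀ x, x ∉ Ω → u x = 0) {T : E n ≃ᵢ E n}
    (hT : Disjoint (T '' Ω) Ω) {x : E n} (hx : x ∈ Ω) :
    u x - u (T.symm x) = u x ∧ u (T x) - u (T.symm (T x)) = - u x ∧ x ≠ T x := by
  have h1 : u (T.symm x) = 0 := by
    apply hu
    intro h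
    exact Set.disjoint_left.1 hT ⟨T.symm x, h, T.apply_symm_apply x⟩ hx
  have h2 : u (T x) = 0 := by
    apply hu
    intro h
    exact Set.disjoint_left.1 hT ⟨x, hx, rfl⟩ h
  refine ⟨by rw [h1, sub_zero], by rw [h2, T.symm_apply_apply, zero_sub], ?_⟩
  intro h
  exact Set.disjoint_left.1 hT ⟨x, hx, rfl⟩ (h ▸ hx)

theorem iso_ge (hn : 2 ≤ n) {p : ℝ} (hp : (n : ℝ) < p) {e : E n} (he : ‖e‖ = 1)
    {Ω : Set (E n)} (hΩ : IsOpen Ω) (hΩ' : Ω ≠ univ)
    (hT : ∀ x ∈ Ω, ∃ T : E n ≃ᵢ E n, Disjoint (T '' Ω) Ω ∧ dist x (T x) ≤ 2 * infDist x Ωᶜ) :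
    lam p (halfspace e 0) ≤ lam p Ω := by
  have hn1 : 1 ≤ n := by omega
  have hn2 : (2 : ℝ) ≤ n := by exact_mod_cast hn
  have hp1 : 1 < p := by linarith
  rw [lam_halfspace hn1 hp he]
  refine le_iInf fun u => le_iInf fun g => le_iInf fun hu => le_iInf fun hu0 => ?_
  obtain ⟨x, hx, hux, hr⟩ := ratio_attained hn1 hp hΩ hΩ' hu hu0
  obtain ⟨T, hTd, hTx⟩ := hT x hx
  obtain ⟨G, hG, hGE⟩ := exists_diff hp1 hu T hTd
  obtain ⟨h1, h2, h3⟩ := iso_values hu.zero hTd hx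
  have h4 := two_point hn hp he hG h3
  rw [h1, h2, hGE] at h4
  have h5 : (u x - -u x) / 2 = u x := by ring
  rw [h5] at h4
  have hD : 0 < dist x (T x) / 2 := by
    have := dist_pos.2 h3
    linarith
  have hd : dist x (T x) / 2 ≤ infDist x Ωᶜ := by linarith
  have hd0 : 0 < infDist x Ωᶜ := lt_of_lt_of_le hD hd
  have h6 : infDist x Ωᶜ ^ ((n : ℝ) - p) ≤ (dist x (T x) / 2) ^ ((n : ℝ) - p) :=
    Real.rpow_le_rpow_of_nonpos hD hd (by linarith)
  have hcH := cH_pos hn1 hp he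
  have hux' : 0 < |u x| ^ p := Real.rpow_pos_of_pos (abs_pos.2 hux) _
  rw [hr]
  apply ENNReal.ofReal_le_ofReal
  rw [le_div_iff₀ hux']
  have h7 : |u x| ^ p * infDist x Ωᶜ ^ ((n : ℝ) - p) * cH p e ≤ energy p g := by
    have h8 : |u x| ^ p * infDist x Ωᶜ ^ ((n : ℝ) - p) * cH p e ≤
        |u x| ^ p * (dist x (T x) / 2) ^ ((n : ℝ) - p) * cH p e := by gcongr
    linarith
  have h9 : infDist x Ωᶜ ^ (p - n) * infDist x Ωᶜ ^ ((n : ℝ) - p) = 1 := by
    rw [← Real.rpow_add hd0]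
    simp
  calc cH p e * |u x| ^ p = infDist x Ωᶜ ^ (p - n) * (|u x| ^ p * infDist x Ωᶜ ^ ((n : ℝ) - p) *
        cH p e) := by
        rw [show infDist x Ωᶜ ^ (p - n) * (|u x| ^ p * infDist x Ωᶜ ^ ((n : ℝ) - p) * cH p e) =
          (infDist x Ωᶜ ^ (p - n) * infDist x Ωᶜ ^ ((n : ℝ) - p)) * (cH p e * |u x| ^ p) by ring,
          h9, one_mul]
    _ ≤ infDist x Ωᶜ ^ (p - n) * energy p g :=
        mul_le_mul_of_nonneg_left h7 (Real.rpow_nonneg hd0.le _)

theorem iso_extremal (hn : 2 ≤ n) {p : ℝ} (hp : (n : ℝ) < p) {e : E n} (he : ‖e‖ = 1)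
    {Ω : Set (E n)} (hΩ : IsOpen Ω) (hΩ' : Ω ≠ univ)
    (hT : ∀ x ∈ Ω, ∃ T : E n ≃ᵢ E n, Disjoint (T '' Ω) Ω ∧ dist x (T x) ≤ 2 * infDist x Ωᶜ)
    (hl : lam p Ω = lam p (halfspace e 0)) (hext : HasExtremal p Ω) :
    ∃ (ν : E n) (c : ℝ), ‖ν‖ = 1 ∧ Ω = halfspace ν c := by
  have hn1 : 1 ≤ n := by omega
  have hn2 : (2 : ℝ) ≤ n := by exact_mod_cast hn
  have hp1 : 1 < p := by linarith
  obtain ⟨u, g, hu, hu0, hr0⟩ := hext
  obtain ⟨x, hx, hux, hr⟩ := ratio_attained hn1 hp hΩ hΩ' hu hu0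
  obtain ⟨T, hTd, hTx⟩ := hT x hx
  obtain ⟨G, hG, hGE⟩ := exists_diff hp1 hu T hTd
  obtain ⟨h1, h2, h3⟩ := iso_values hu.zero hTd hx
  have hD : 0 < dist x (T x) / 2 := by
    have := dist_pos.2 h3
    linarith
  have hd : dist x (T x) / 2 ≤ infDist x Ωᶜ := by linarith
  have hd0 : 0 < infDist x Ωᶜ := lt_of_lt_of_le hD hd
  have h6 : infDist x Ωᶜ ^ ((n : ℝ) - p) ≤ (dist x (T x) / 2) ^ ((n : ℝ) - p) :=
    Real.rpow_le_rpow_of_nonpos hD hd (by linarith)
  have hcH := cH_pos hn1 hp he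
  have hua : 0 < |u x| := abs_pos.2 hux
  have hux' : 0 < |u x| ^ p := Real.rpow_pos_of_pos hua _
  have hEn : infDist x Ωᶜ ^ (p - n) * energy p g / |u x| ^ p = cH p e := by
    have h1 : ENNReal.ofReal (infDist x Ωᶜ ^ (p - n) * energy p g / |u x| ^ p) =
        ENNReal.ofReal (cH p e) := by
      rw [← hr, hr0, hl, lam_halfspace hn1 hp he]
    have h2 : 0 ≤ infDist x Ωᶜ ^ (p - n) * energy p g / |u x| ^ p :=
      div_nonneg (mul_nonneg (Real.rpow_nonneg hd0.le _) (energy_nonneg p g))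
        (Real.rpow_nonneg hua.le _)
    exact (ENNReal.ofReal_eq_ofReal_iff h2 hcH.le).1 h1
  have h9 : infDist x Ωᶜ ^ ((n : ℝ) - p) * infDist x Ωᶜ ^ (p - n) = 1 := by
    rw [← Real.rpow_add hd0]
    simp
  have hE1 : |(u x)⁻¹| ^ p * energy p g = infDist x Ωᶜ ^ ((n : ℝ) - p) * cH p e := by
    rw [← hEn, abs_inv, Real.inv_rpow hua.le]
    calc (|u x| ^ p)⁻¹ * energy p g =
          (infDist x Ωᶜ ^ ((n : ℝ) - p) * infDist x Ωᶜ ^ (p - n)) *
            ((|u x| ^ p)⁻¹ * energy p g) := by rw [h9, one_mul]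
      _ = _ := by ring
  have hG' := hG.const_mul hp1.le (u x)⁻¹
  have key := fun z => two_point_eq hn hp he hG' h3 (by rw [h1]; exact inv_mul_cancel₀ hux)
    (by rw [h2, mul_neg, inv_mul_cancel₀ hux]) (by
      rw [sim_energy_const_smul, hGE]
      have : |(u x)⁻¹| ^ p * (2 * energy p g) = 2 * (|(u x)⁻¹| ^ p * energy p g) := by ring
      rw [this, hE1]
      gcongr) z
  have hcov : ∀ z, dist z x ≠ dist z (T x) → z ∈ Ω ∪ T '' Ω := by
    intro z hz
    by_contra hcon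
    rw [mem_union, not_or] at hcon
    have h4 : u z = 0 := hu.zero z hcon.1
    have h5 : u (T.symm z) = 0 := hu.zero _ fun h => hcon.2 ⟨_, h, T.apply_symm_apply z⟩
    have := key z hz
    rw [h4, h5, sub_zero, mul_zero] at this
    exact this rfl
  have hTo : IsOpen (T '' Ω) := T.toHomeomorph.isOpenMap _ hΩ
  have hH1 : {z : E n | dist z x < dist z (T x)} ⊆ Ω := by
    have hc : IsPreconnected {z : E n | dist z x < dist z (T x)} := by
      rw [iso_bisector h3]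
      exact (iso_halfspace_convex _ _).isPreconnected
    refine hc.subset_left_of_subset_union hΩ hTo hTd.symm (fun z hz => hcov z (ne_of_lt hz)) ?_
    exact ⟨x, by simpa using dist_pos.2 h3, hx⟩
  have hH2 : {z : E n | dist z (T x) < dist z x} ⊆ T '' Ω := by
    have hc : IsPreconnected {z : E n | dist z (T x) < dist z x} := by
      rw [iso_bisector h3.symm]
      exact (iso_halfspace_convex _ _).isPreconnected
    refine hc.subset_right_of_subset_union hΩ hTo hTd.symm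
      (fun z hz => hcov z (ne_of_gt hz)) ?_
    exact ⟨T x, by simpa using dist_pos.2 h3.symm, ⟨x, hx, rfl⟩⟩
  have heq : Ω = {z : E n | dist z x < dist z (T x)} := by
    refine Subset.antisymm (fun z hz => ?_) hH1
    by_contra hcon
    have hz1 : dist z (T x) ≤ dist z x := not_lt.1 hcon
    rcases hz1.lt_or_eq with h | h
    · exact Set.disjoint_left.1 hTd (hH2 h) hz
    · -- move slightly towards `T x`
      have hcont : Tendsto (fun s : ℝ => z + s • (T x - x)) (𝓝[>] 0) (𝓝 z) := by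
        have : Tendsto (fun s : ℝ => z + s • (T x - x)) (𝓝 0) (𝓝 (z + (0 : ℝ) • (T x - x))) :=
          (continuous_const.add (continuous_id.smul continuous_const)).tendsto 0
        rw [zero_smul, add_zero] at this
        exact this.mono_left nhdsWithin_le_nhds
      obtain ⟨s, hs1, hs2⟩ := ((hcont.eventually (hΩ.mem_nhds hz)).and self_mem_nhdsWithin).exists
      have hs : 0 < s := hs2
      refine Set.disjoint_left.1 hTd (hH2 ?_) hs1
      show dist (z + s • (T x - x)) (T x) < dist (z + s • (T x - x)) x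
      have e1 : ‖z - T x‖ ^ 2 = ‖z - x‖ ^ 2 := by
        rw [← dist_eq_norm, ← dist_eq_norm, h]
      rw [dist_eq_norm, dist_eq_norm, ← sq_lt_sq₀ (norm_nonneg _) (norm_nonneg _)]
      have e2 : z + s • (T x - x) - T x = (z - T x) + s • (T x - x) := by abel
      have e3 : z + s • (T x - x) - x = (z - x) + s • (T x - x) := by abel
      rw [e2, e3, @norm_add_sq_real, @norm_add_sq_real, e1, real_inner_smul_right,
        real_inner_smul_right]
      have e4 : inner ℝ (z - x) (T x - x) - inner ℝ (z - T x) (T x - x) =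
          ‖T x - x‖ ^ 2 := by
        rw [← inner_sub_left, ← real_inner_self_eq_norm_sq]
        congr 1
        abel
      have e5 : 0 < ‖T x - x‖ ^ 2 := by
        have : 0 < ‖T x - x‖ := norm_pos_iff.2 (sub_ne_zero.2 h3.symm)
        positivity
      nlinarith
  rw [iso_bisector h3] at heq
  refine ⟨_, _, ?_, heq⟩
  rw [norm_smul, norm_inv, norm_norm, inv_mul_cancel₀]
  exact (norm_pos_iff.2 (sub_ne_zero.2 h3)).ne'

end HMor
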