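import Pool.Agent.W_MP_55e37b_an.PosPart
import Pool.Agent.W_MP_55e37b_an.Morrey

set_option autoImplicit false

/-!
# MP_55e37b_an : restriction to a halfspace of a function vanishing on the boundary hyperplane

PROOF of the weak gradient identity for `indicator H W`, `H = halfspace ν c`.  Let `φ ∈ C_c^∞`, `v` a vector, `F = Real.smoothTransition` and
`χ_k x = F (k * (inner x ν - c))`, smooth, with values in `[0,1]`, `χ_k = 0` off `H`, `χ_k x → 1` for `x ∈ H`.  Apply `hW.weak` to `χ_k φ`:
`∫ W φ ∂_v χ_k + ∫ W χ_k ∂_v φ = - ∫ ⟪G, v⟫ χ_k φ`.  The last two integrals tend to the integrals over `H` (dominated convergence).  The first tends to `0`: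
`∂_v χ_k = k F'(k ℓ) ⟪ν, v⟫` (`ℓ x = inner x ν - c`) vanishes off `{0 ≤ ℓ ≤ 1/k}`, `F' ≥ 0`.  Let `ψ ∈ C_c^∞`, `0 ≤ ψ`, `ψ = 1` on the support of `φ` (`exists_contDiff_tsupport_subset` or a bump function).
Then `∫ ψ k F'(k ℓ) = ∫ ψ ∂_ν χ_k = - ∫ χ_k ∂_ν ψ ≤ ∫ |∂_ν ψ| =: C` (`weak_of_contDiff` in `Basics.lean`, or `integral_mul_fderiv_eq_neg_fderiv_mul_of_integrable`), and `|W| ≤ ε` on
`tsupport φ ∩ {0 ≤ ℓ ≤ 1/k}` for large `k`, because `W` is continuous and `0` on `ℓ = 0` and `tsupport φ` is compact.  So `|∫ W φ ∂_v χ_k| ≤ ε ‖v‖ sup |φ| C`.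
The indicator of `W` is continuous because `W` vanishes on the hyperplane; the gradient is in `L^p` (`MemLp.indicator`).
-/

open MeasureTheory Metric Set Filter Topology
open scoped ENNReal

namespace HMor

open BasicsAux

/-- the smooth cutoffs -/
noncomputable def Half_chi {n : ℕ} (ν : E n) (c : ℝ) (k : ℕ) (x : E n) : ℝ :=
  Real.smoothTransition (k * (inner ℝ x ν - c))

/-- the size of the gradient of the cutoffs -/
noncomputable def Half_b {n : ℕ} (ν : E n) (c : ℝ) (k : ℕ) (x : E n) : ℝ :=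
  k * deriv Real.smoothTransition (k * (inner ℝ x ν - c))

theorem Half_smooth {n : ℕ} (ν : E n) (c : ℝ) (k : ℕ) :
    ContDiff ℝ ((⊤ : ℕ∞) : WithTop ℕ∞) (Half_chi ν c k) := by
  unfold Half_chi
  exact Real.smoothTransition.contDiff.comp
    (contDiff_const.mul ((contDiff_id.inner ℝ contDiff_const).sub contDiff_const))

theorem Half_fderiv {n : ℕ} (ν : E n) (c : ℝ) (k : ℕ) (x v : E n) :
    fderiv ℝ (Half_chi ν c k) x v = Half_b ν c k x * inner ℝ v ν := by
  have h1 : HasDerivAt Real.smoothTransition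
      (deriv Real.smoothTransition (k * (inner ℝ x ν - c))) (k * (inner ℝ x ν - c)) :=
    ((Real.smoothTransition.contDiff (n := 1)).differentiable (by simp) _).hasDerivAt
  have h2 : HasFDerivAt (fun x : E n => (k : ℝ) * (inner ℝ x ν - c))
      ((k : ℝ) • (innerSL ℝ ν : E n →L[ℝ] ℝ)) x := by
    have h3 : HasFDerivAt (fun x : E n => (inner ℝ x ν : ℝ)) (innerSL ℝ ν : E n →L[ℝ] ℝ) x := by
      have h4 := (innerSL ℝ ν : E n →L[ℝ] ℝ).hasFDerivAt (x := x)
      refine h4.congr_of_eventuallyEq (Eventually.of_forall fun y => ?_)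
      rw [innerSL_apply_apply]
      exact real_inner_comm ν y
    exact (h3.sub_const c).const_mul (k : ℝ)
  have h5 := (h1.comp_hasFDerivAt x h2).fderiv
  have h6 : Half_chi ν c k = Real.smoothTransition ∘ fun x : E n => (k : ℝ) * (inner ℝ x ν - c) := rfl
  rw [h6, h5]
  unfold Half_b
  have h7 : (deriv Real.smoothTransition (k * (inner ℝ x ν - c)) •
      (k : ℝ) • (innerSL ℝ ν : E n →L[ℝ] ℝ)) v =
      deriv Real.smoothTransition (k * (inner ℝ x ν - c)) * ((k : ℝ) * inner ℝ ν v) := rfl
  rw [h7, real_inner_comm v ν]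
  ring

theorem Half_b_nonneg {n : ℕ} (ν : E n) (c : ℝ) (k : ℕ) (x : E n) : 0 ≤ Half_b ν c k x :=
  mul_nonneg (Nat.cast_nonneg _) (Real.smoothTransition.monotone.deriv_nonneg)

theorem Half_b_cont {n : ℕ} (ν : E n) (c : ℝ) (k : ℕ) : Continuous (Half_b ν c k) := by
  unfold Half_b
  have h1 : Continuous (deriv Real.smoothTransition) :=
    (Real.smoothTransition.contDiff (n := 1)).continuous_deriv le_rfl
  exact continuous_const.mul (h1.comp (continuous_const.mul
    ((continuous_id.inner continuous_const).sub continuous_const)))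

theorem Half_b_zero {n : ℕ} (ν : E n) (c : ℝ) (k : ℕ) (x : E n)
    (h : Half_b ν c k x ≠ 0) : 0 ≤ inner ℝ x ν - c ∧ k * (inner ℝ x ν - c) ≤ 1 := by
  have hk : (k : ℝ) ≠ 0 := fun h1 => h (by unfold Half_b; rw [h1, zero_mul])
  have hk0 : (0 : ℝ) < k := lt_of_le_of_ne (Nat.cast_nonneg _) hk.symm
  have hd : deriv Real.smoothTransition (k * (inner ℝ x ν - c)) ≠ 0 := fun h1 => h (by
    unfold Half_b; rw [h1, mul_zero])
  constructor
  · by_contra h1
    push Not at h1
    apply hd
    have h2 : (k : ℝ) * (inner ℝ x ν - c) < 0 := mul_neg_of_pos_of_neg hk0 h1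
    have h3 : Real.smoothTransition =ᶠ[𝓝 ((k : ℝ) * (inner ℝ x ν - c))] fun _ => 0 := by
      filter_upwards [gt_mem_nhds h2] with y hy
      exact Real.smoothTransition.zero_of_nonpos (le_of_lt hy)
    rw [h3.deriv_eq, deriv_const]
  · by_contra h1
    push Not at h1
    apply hd
    have h3 : Real.smoothTransition =ᶠ[𝓝 ((k : ℝ) * (inner ℝ x ν - c))] fun _ => 1 := by
      filter_upwards [lt_mem_nhds h1] with y hy
      exact Real.smoothTransition.one_of_one_le (le_of_lt hy)
    rw [h3.deriv_eq, deriv_const]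

theorem Half_inner {n : ℕ} (ν : E n) (c : ℝ) (k : ℕ) (x v : E n) :
    inner ℝ (gradient (Half_chi ν c k) x) v = Half_b ν c k x * inner ℝ v ν := by
  rw [inner_gradient', Half_fderiv]

theorem Half_int_b {n : ℕ} {ν : E n} (hν : ‖ν‖ = 1) (c : ℝ) {ψ : E n → ℝ}
    (hψ : ContDiff ℝ ((⊤ : ℕ∞) : WithTop ℕ∞) ψ) (hc : HasCompactSupport ψ) (k : ℕ) :
    ∫ x, Half_b ν c k x * ψ x ≤ ∫ x, |fderiv ℝ ψ x ν| := by
  have h1 := weak_of_contDiff (one_of_smooth (Half_smooth ν c k)) ψ hψ hc ν
  have h2 : ∀ x, inner ℝ (gradient (Half_chi ν c k) x) ν * ψ x = Half_b ν c k x * ψ x := by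
    intro x
    rw [Half_inner, real_inner_self_eq_norm_sq, hν]
    ring
  simp only [h2] at h1
  have h3 : ∫ x, Half_b ν c k x * ψ x = - ∫ x, Half_chi ν c k x * fderiv ℝ ψ x ν := by
    rw [h1, neg_neg]
  have hi : Integrable (fun x => |fderiv ℝ ψ x ν|) :=
    ((cont_fderiv_apply (one_of_smooth hψ) ν).integrable_of_hasCompactSupport
      (supp_fderiv_apply hc ν)).abs
  rw [h3]
  refine (neg_le_abs _).trans ?_
  have h4 := norm_integral_le_of_norm_le hi (f := fun x => Half_chi ν c k x * fderiv ℝ ψ x ν)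
    (Eventually.of_forall fun x => ?_)
  · exact h4
  · rw [norm_mul]
    have h5 : ‖Half_chi ν c k x‖ ≤ 1 := by
      rw [Real.norm_eq_abs, abs_le]
      exact ⟨by linarith [Real.smoothTransition.nonneg ((k : ℝ) * (inner ℝ x ν - c)),
        show Half_chi ν c k x = Real.smoothTransition ((k : ℝ) * (inner ℝ x ν - c)) from rfl],
        Real.smoothTransition.le_one _⟩
    calc ‖Half_chi ν c k x‖ * ‖fderiv ℝ ψ x ν‖ ≤ 1 * ‖fderiv ℝ ψ x ν‖ := by gcongr
      _ = |fderiv ℝ ψ x ν| := by rw [one_mul, Real.norm_eq_abs]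

theorem Half_chi_abs {n : ℕ} (ν : E n) (c : ℝ) (k : ℕ) (x : E n) : |Half_chi ν c k x| ≤ 1 := by
  have h1 : 0 ≤ Half_chi ν c k x := Real.smoothTransition.nonneg _
  have h2 : Half_chi ν c k x ≤ 1 := Real.smoothTransition.le_one _
  rw [abs_of_nonneg h1]
  exact h2

theorem Half_chi_lim {n : ℕ} (ν : E n) (c : ℝ) (x : E n) :
    Tendsto (fun k => Half_chi ν c k x) atTop (𝓝 (indicator (halfspace ν c) (fun _ => 1) x)) := by
  by_cases hx : x ∈ halfspace ν c
  · rw [indicator_of_mem hx]
    have h1 : 0 < inner ℝ x ν - c := sub_pos.2 hx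
    refine tendsto_const_nhds.congr' ?_
    obtain ⟨k0, hk0⟩ := exists_nat_ge (1 / (inner ℝ x ν - c))
    filter_upwards [eventually_ge_atTop k0] with k hk
    symm
    refine Real.smoothTransition.one_of_one_le ?_
    have h2 : 1 / (inner ℝ x ν - c) ≤ k := hk0.trans (by exact_mod_cast hk)
    rwa [div_le_iff₀ h1] at h2
  · rw [indicator_of_notMem hx]
    have h1 : inner ℝ x ν - c ≤ 0 := sub_nonpos.2 (not_lt.1 hx)
    refine tendsto_const_nhds.congr fun k => ?_
    symm
    exact Real.smoothTransition.zero_of_nonpos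
      (mul_nonpos_of_nonneg_of_nonpos (Nat.cast_nonneg _) h1)

theorem Half_rem {n : ℕ} {ν : E n} (hν : ‖ν‖ = 1) {c : ℝ} {W : E n → ℝ} (hW : Continuous W)
    (h0 : ∀ x, inner ℝ x ν = c → W x = 0) {φ : E n → ℝ}
    (hφ : ContDiff ℝ ((⊤ : ℕ∞) : WithTop ℕ∞) φ) (hφc : HasCompactSupport φ) (v : E n) :
    Tendsto (fun k => ∫ x, W x * (Half_b ν c k x * inner ℝ v ν) * φ x) atTop (𝓝 0) := by
  obtain ⟨M, hM0, hM⟩ : ∃ M, 0 ≤ M ∧ ∀ x, |φ x| ≤ M := by
    obtain ⟨M, hM⟩ := hφc.exists_bound_of_continuous hφ.continuous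
    exact ⟨max M 0, le_max_right _ _, fun x => (by simpa using hM x : |φ x| ≤ M).trans
      (le_max_left _ _)⟩
  obtain ⟨R, hR0, hR⟩ : ∃ R : ℝ, 0 < R ∧ tsupport φ ⊆ closedBall 0 R := by
    obtain ⟨R, hR⟩ := hφc.isBounded.subset_closedBall 0
    exact ⟨max R 1, lt_of_lt_of_le one_pos (le_max_right _ _),
      hR.trans (closedBall_subset_closedBall (le_max_left _ _))⟩
  let ψ : ContDiffBump (0 : E n) := ⟨R, R + 1, hR0, by linarith⟩
  have hψ : ContDiff ℝ ((⊤ : ℕ∞) : WithTop ℕ∞) (ψ : E n → ℝ) := ψ.contDiff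
  have hψc : HasCompactSupport (ψ : E n → ℝ) := ψ.hasCompactSupport
  set C := ∫ x, |fderiv ℝ ψ x ν| with hC
  have hC0 : 0 ≤ C := integral_nonneg fun x => abs_nonneg _
  rw [Metric.tendsto_atTop]
  intro ε hε
  set η := ε / ((M + 1) * (‖v‖ + 1) * (C + 1)) with hη
  have hη0 : 0 < η := by positivity
  have huc : UniformContinuousOn W (closedBall 0 (R + 1)) :=
    (isCompact_closedBall (0 : E n) (R + 1)).uniformContinuousOn_of_continuous hW.continuousOn
  obtain ⟨δ, hδ0, hδ⟩ := Metric.uniformContinuousOn_iff.1 huc η hη0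
  obtain ⟨k0, hk0⟩ := exists_nat_gt (max 1 (1 / δ))
  refine ⟨k0, fun k hk => ?_⟩
  have hk1 : max 1 (1 / δ) < (k : ℝ) := lt_of_lt_of_le hk0 (by exact_mod_cast hk)
  have hk2 : 1 < (k : ℝ) := lt_of_le_of_lt (le_max_left _ _) hk1
  have hk3 : 1 / δ < (k : ℝ) := lt_of_le_of_lt (le_max_right _ _) hk1
  rw [dist_zero_right]
  have hpt : ∀ x, ‖W x * (Half_b ν c k x * inner ℝ v ν) * φ x‖ ≤
      (η * (M + 1) * (‖v‖ + 1)) * (Half_b ν c k x * ψ x) := by
    intro x
    have hrhs : 0 ≤ (η * (M + 1) * (‖v‖ + 1)) * (Half_b ν c k x * ψ x) :=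
      mul_nonneg (by positivity) (mul_nonneg (Half_b_nonneg ν c k x) ψ.nonneg)
    by_cases hb : Half_b ν c k x = 0
    · rw [hb]
      simp
    by_cases hx : x ∈ tsupport φ
    · have hxR : x ∈ closedBall (0 : E n) R := hR hx
      obtain ⟨h1, h2⟩ := Half_b_zero ν c k x hb
      have h3 : inner ℝ x ν - c ≤ 1 / k := by
        rw [le_div_iff₀ (by linarith)]
        linarith
      have h4 : 1 / (k : ℝ) < 1 := by
        rw [div_lt_one (by linarith)]
        exact hk2
      have h5 : 1 / (k : ℝ) < δ := by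
        rw [div_lt_iff₀ (by linarith)]
        rw [div_lt_iff₀ hδ0] at hk3
        linarith
      set y : E n := x - (inner ℝ x ν - c) • ν with hy
      have hyc : inner ℝ y ν = c := by
        rw [hy, inner_sub_left, real_inner_smul_left, real_inner_self_eq_norm_sq, hν]
        ring
      have hdist : dist x y = inner ℝ x ν - c := by
        rw [dist_eq_norm, hy, sub_sub_cancel, norm_smul, hν, mul_one, Real.norm_eq_abs,
          abs_of_nonneg h1]
      have hyR : y ∈ closedBall (0 : E n) (R + 1) := by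
        rw [mem_closedBall] at hxR ⊢
        have h6 := dist_triangle_left y 0 x
        have h7 := dist_triangle y x 0
        rw [dist_comm y x] at h7
        linarith
      have hxR' : x ∈ closedBall (0 : E n) (R + 1) :=
        closedBall_subset_closedBall (by linarith) hxR
      have h6 := hδ x hxR' y hyR (by rw [hdist]; linarith)
      rw [h0 y hyc, dist_zero_right, Real.norm_eq_abs] at h6
      have h7 : (ψ : E n → ℝ) x = 1 := ψ.one_of_mem_closedBall hxR
      have h8 : |(inner ℝ v ν : ℝ)| ≤ ‖v‖ := by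
        have h9 := abs_real_inner_le_norm v ν
        rwa [hν, mul_one] at h9
      rw [h7, mul_one, norm_mul, norm_mul, norm_mul, Real.norm_eq_abs, Real.norm_eq_abs,
        Real.norm_eq_abs, Real.norm_eq_abs, abs_of_nonneg (Half_b_nonneg ν c k x)]
      have hbn := Half_b_nonneg ν c k x
      have hMx := hM x
      calc |W x| * (Half_b ν c k x * |(inner ℝ v ν : ℝ)|) * |φ x|
          ≤ η * (Half_b ν c k x * (‖v‖ + 1)) * (M + 1) := by
            gcongr
            · linarith
            · linarith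
        _ = η * (M + 1) * (‖v‖ + 1) * Half_b ν c k x := by ring
    · rw [image_eq_zero_of_notMem_tsupport hx, mul_zero, norm_zero]
      exact hrhs
  have hbi : Integrable (fun x => Half_b ν c k x * ψ x) :=
    ((Half_b_cont ν c k).mul hψ.continuous).integrable_of_hasCompactSupport hψc.mul_left
  have h1 := norm_integral_le_of_norm_le (hbi.const_mul (η * (M + 1) * (‖v‖ + 1)))
    (Eventually.of_forall hpt)
  rw [integral_const_mul] at h1
  refine lt_of_le_of_lt h1 ?_
  have h2 : ∫ x, Half_b ν c k x * ψ x ≤ C := Half_int_b hν c hψ hψc k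
  calc η * (M + 1) * (‖v‖ + 1) * ∫ x, Half_b ν c k x * ψ x
      ≤ η * (M + 1) * (‖v‖ + 1) * C := mul_le_mul_of_nonneg_left h2 (by positivity)
    _ < η * (M + 1) * (‖v‖ + 1) * (C + 1) := mul_lt_mul_of_pos_left (by linarith) (by positivity)
    _ = ε := by
        rw [hη]
        field_simp

theorem isD0_half {n : ℕ} {p : ℝ} (hp : 1 ≤ p) {ν : E n} (hν : ‖ν‖ = 1) {c : ℝ} {W : E n → ℝ}
    {G : E n → E n} (hW : IsD p W G) (h0 : ∀ x, inner ℝ x ν = c → W x = 0) :
    IsD0 p (halfspace ν c) (indicator (halfspace ν c) W) (indicator (halfspace ν c) G) := by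
  have hmeas : MeasurableSet (halfspace ν c) :=
    (isOpen_lt continuous_const (continuous_id.inner continuous_const)).measurableSet
  have hwg := hW.wg hp
  refine ⟨⟨?_, hW.memLp.indicator hmeas, ?_⟩, fun x hx => indicator_of_notMem hx _⟩
  · refine continuous_indicator (fun x hx => ?_) hW.cont.continuousOn
    have h1 : frontier {x : E n | c < inner ℝ x ν} ⊆ {x | c = inner ℝ x ν} :=
      frontier_lt_subset_eq continuous_const (continuous_id.inner continuous_const)
    exact h0 x (h1 hx).symm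
  · intro φ hφ hφc v
    have hφ1 := one_of_smooth hφ
    have hid : ∀ k, ∫ x, Half_chi ν c k x * W x * fderiv ℝ φ x v =
        - ((∫ x, Half_chi ν c k x * (inner ℝ (G x) v * φ x)) +
          ∫ x, W x * (Half_b ν c k x * inner ℝ v ν) * φ x) := by
      intro k
      have h1 := (hwg.mul_smooth (Half_smooth ν c k)).weak φ hφ hφc v
      have i1 : Integrable (fun x => Half_chi ν c k x * (inner ℝ (G x) v * φ x)) := by
        have h2 := int2 (hwg.locInt) ((Half_smooth ν c k).continuous.mul hφ.continuous)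
          (hφc.mul_left) v
        refine h2.congr (Eventually.of_forall fun x => ?_)
        simp only [Pi.mul_apply]
        ring
      have i2 : Integrable (fun x => W x * (Half_b ν c k x * inner ℝ v ν) * φ x) :=
        (((hW.cont.mul ((Half_b_cont ν c k).mul continuous_const))).mul
          hφ.continuous).integrable_of_hasCompactSupport hφc.mul_left
      rw [← integral_add i1 i2, h1]
      congr 1
      refine integral_congr_ae (Eventually.of_forall fun x => ?_)
      simp only [inner_add_left, real_inner_smul_left, Half_inner]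
      ring
    have hL : Tendsto (fun k => ∫ x, Half_chi ν c k x * W x * fderiv ℝ φ x v) atTop
        (𝓝 (∫ x, indicator (halfspace ν c) W x * fderiv ℝ φ x v)) := by
      refine tendsto_integral_of_dominated_convergence (fun x => |W x * fderiv ℝ φ x v|) ?_
        (int1 hW.cont hφ1 hφc v).abs ?_ ?_
      · intro k
        exact (((Half_smooth ν c k).continuous.mul hW.cont).mul
          (cont_fderiv_apply hφ1 v)).aestronglyMeasurable
      · intro k
        filter_upwards with x
        rw [mul_assoc, norm_mul, Real.norm_eq_abs, Real.norm_eq_abs]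
        calc |Half_chi ν c k x| * |W x * fderiv ℝ φ x v| ≤ 1 * |W x * fderiv ℝ φ x v| := by
              gcongr
              exact Half_chi_abs ν c k x
          _ = |W x * fderiv ℝ φ x v| := one_mul _
      · filter_upwards with x
        have h1 := ((Half_chi_lim ν c x).mul_const (W x)).mul_const (fderiv ℝ φ x v)
        have h2 : indicator (halfspace ν c) (fun _ => (1 : ℝ)) x * W x =
            indicator (halfspace ν c) W x := by
          by_cases hx : x ∈ halfspace ν c
          · rw [indicator_of_mem hx, indicator_of_mem hx, one_mul]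
          · rw [indicator_of_notMem hx, indicator_of_notMem hx, zero_mul]
        rwa [h2] at h1
    have hG : Tendsto (fun k => ∫ x, Half_chi ν c k x * (inner ℝ (G x) v * φ x)) atTop
        (𝓝 (∫ x, inner ℝ (indicator (halfspace ν c) G x) v * φ x)) := by
      have hi := int2 hwg.locInt hφ.continuous hφc v
      refine tendsto_integral_of_dominated_convergence (fun x => |inner ℝ (G x) v * φ x|) ?_
        hi.abs ?_ ?_
      · intro k
        exact (Half_smooth ν c k).continuous.aestronglyMeasurable.mul hi.aestronglyMeasurable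
      · intro k
        filter_upwards with x
        rw [norm_mul, Real.norm_eq_abs, Real.norm_eq_abs]
        calc |Half_chi ν c k x| * |inner ℝ (G x) v * φ x| ≤ 1 * |inner ℝ (G x) v * φ x| := by
              gcongr
              exact Half_chi_abs ν c k x
          _ = |inner ℝ (G x) v * φ x| := one_mul _
      · filter_upwards with x
        have h1 := (Half_chi_lim ν c x).mul_const (inner ℝ (G x) v * φ x)
        have h2 : indicator (halfspace ν c) (fun _ => (1 : ℝ)) x * (inner ℝ (G x) v * φ x) =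
            inner ℝ (indicator (halfspace ν c) G x) v * φ x := by
          by_cases hx : x ∈ halfspace ν c
          · rw [indicator_of_mem hx, indicator_of_mem hx, one_mul]
          · rw [indicator_of_notMem hx, indicator_of_notMem hx, zero_mul, inner_zero_left,
              zero_mul]
        rwa [h2] at h1
    have hR := Half_rem hν hW.cont h0 hφ hφc v
    have hlim := (hG.add hR).neg
    rw [add_zero] at hlim
    exact tendsto_nhds_unique (hL.congr hid) hlim

end HMor
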