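import Pool.Agent.W_MP_55e37b_an.Final
import Pool.Agent.W_55e37b_h14.Half

set_option autoImplicit false

/-!
# MP_55e37b_an : the two-point problem

Let `a ≠ a'`, `ν = (a - a') / |a - a'|`, `m = (a + a') / 2`, `c = inner m ν`, `H = halfspace ν c`, `R` the reflection in the hyperplane `inner x ν = c`:
`R x = b + A x` with `A x = x - 2 ⟪x, ν⟫ ν` (`A = Submodule.reflection (ℝ ∙ ν)ᗮ`), `b = (2 c) • ν`; `R a = a'`, `R` is an involution.
Let `U` be in `D^{1,p}`, with weak gradient `G`, `V x = (U x - U (R x)) / 2`, with weak gradient `GV x = (1/2) • (G x - A.symm (G (R x)))` (`IsD.comp_sim` with `t = 1`, `A.symm = A`).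
`V (R x) = - V x`, `‖GV (R x)‖ = ‖GV x‖`, `V = 0` on the hyperplane.  By `isD0_half` the function `indicator H V` is in `D_0^{1,p}(H)`, and its energy is `energy p GV / 2` (the complement of `H` is `R H`
up to the null set `inner x ν = c`).  By `halfspace_energy_ge` at the point `a` (`inner (a - m) ν = dist a a' / 2`):
`|V a| ^ p * (dist a a' / 2) ^ (n - p) * cH p e ≤ energy p GV / 2`, and `V a = (U a - U a') / 2`.
By `clarkson` and `energy_comp_sim`: `energy p GV + energy p (fun x => (1/2) • (G x + A.symm (G (R x)))) ≤ energy p G`.   This proves `two_point`.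

`two_point_eq`: now `V a = 1`, so all inequalities are equalities: the energy of the weak gradient of `(U + U ∘ R) / 2` is `0`, so this function is constant (`morrey`), equal to its value `0` at `a`, so
`U = V`.  Also `indicator H V` has energy `(dist a a' / 2) ^ (n - p) * cH p e`; so `|indicator H V|` (`IsD.abs`) is nonnegative and `IsMin p H a` (as at the end of `convex_extremal` in `Final.lean`), so by
`IsMin.pos` it is positive on `H`.  So `U ≠ 0` on `H`, and on `R H` by antisymmetry; `dist x a ≠ dist x a'` iff `inner x ν ≠ c` iff `x ∈ H ∪ R H`.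
-/

open MeasureTheory Metric Set Filter Topology
open scoped ENNReal

namespace HMor

/-- the linear part of the reflection -/
private noncomputable def TwoPoint_A {n : ℕ} (ν : E n) : E n ≃ₗᵢ[ℝ] E n :=
  (Submodule.span ℝ {ν})ᗮ.reflection

/-- the reflection -/
private noncomputable def TwoPoint_R {n : ℕ} (ν : E n) (c : ℝ) (x : E n) : E n :=
  (2 * c) • ν + TwoPoint_A ν x

private theorem TwoPoint_A_apply {n : ℕ} {ν : E n} (hν : ‖ν‖ = 1) (x : E n) :
    TwoPoint_A ν x = x - (2 * inner ℝ x ν) • ν := by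
  unfold TwoPoint_A
  rw [Submodule.reflection_orthogonal_apply, Submodule.reflection_singleton_apply, hν,
    real_inner_comm]
  simp only [RCLike.ofReal_one, one_pow, div_one]
  rw [neg_sub, two_smul, two_mul, add_smul]

private theorem TwoPoint_A_symm {n : ℕ} (ν : E n) : (TwoPoint_A ν).symm = TwoPoint_A ν :=
  Submodule.reflection_symm

private theorem TwoPoint_A_A {n : ℕ} (ν : E n) (x : E n) : TwoPoint_A ν (TwoPoint_A ν x) = x := by
  conv_lhs => rw [← TwoPoint_A_symm ν]
  rw [TwoPoint_A_symm]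
  exact Submodule.reflection_reflection _ x

private theorem TwoPoint_R_apply {n : ℕ} {ν : E n} (hν : ‖ν‖ = 1) (c : ℝ) (x : E n) :
    TwoPoint_R ν c x = x + (2 * (c - inner ℝ x ν)) • ν := by
  unfold TwoPoint_R
  rw [TwoPoint_A_apply hν, mul_sub, sub_smul]
  abel

private theorem TwoPoint_R_inner {n : ℕ} {ν : E n} (hν : ‖ν‖ = 1) (c : ℝ) (x : E n) :
    inner ℝ (TwoPoint_R ν c x) ν = 2 * c - inner ℝ x ν := by
  rw [TwoPoint_R_apply hν, inner_add_left, real_inner_smul_left, real_inner_self_eq_norm_sq, hν]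
  ring

private theorem TwoPoint_R_fix {n : ℕ} {ν : E n} (hν : ‖ν‖ = 1) {c : ℝ} {x : E n}
    (hx : inner ℝ x ν = c) : TwoPoint_R ν c x = x := by
  rw [TwoPoint_R_apply hν, hx, sub_self, mul_zero, zero_smul, add_zero]

private theorem TwoPoint_R_R {n : ℕ} {ν : E n} (hν : ‖ν‖ = 1) (c : ℝ) (x : E n) :
    TwoPoint_R ν c (TwoPoint_R ν c x) = x := by
  rw [TwoPoint_R_apply hν c (TwoPoint_R ν c x), TwoPoint_R_inner hν, TwoPoint_R_apply hν c x,
    add_assoc, ← add_smul]
  have : 2 * (c - inner ℝ x ν) + 2 * (c - (2 * c - inner ℝ x ν)) = 0 := by ring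
  rw [this, zero_smul, add_zero]

private theorem TwoPoint_R_dist {n : ℕ} (ν : E n) (c : ℝ) (x y : E n) :
    dist (TwoPoint_R ν c x) (TwoPoint_R ν c y) = dist x y := by
  unfold TwoPoint_R
  rw [dist_add_left, LinearIsometryEquiv.dist_map]

private theorem TwoPoint_comp {n : ℕ} {p : ℝ} (hp : 1 ≤ p) {U : E n → ℝ} {G : E n → E n}
    (hU : IsD p U G) (ν : E n) (c : ℝ) :
    IsD p (fun x => U (TwoPoint_R ν c x)) (fun x => TwoPoint_A ν (G (TwoPoint_R ν c x))) ∧
      energy p (fun x => TwoPoint_A ν (G (TwoPoint_R ν c x))) = energy p G := by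
  have h1 := hU.comp_sim hp (TwoPoint_A ν) ((2 * c) • ν) one_pos
  have h2 := energy_comp_sim p G (TwoPoint_A ν) ((2 * c) • ν) one_pos
  rw [Real.one_rpow, one_mul] at h2
  simp only [one_smul, TwoPoint_A_symm] at h1 h2
  exact ⟨h1, h2⟩

/-- the common part of the two theorems -/
private theorem TwoPoint_main {n : ℕ} {p : ℝ} (hp1 : 1 ≤ p) (hp2 : 2 ≤ p)
    {U : E n → ℝ} {G : E n → E n} (hU : IsD p U G) {ν : E n} (hν : ‖ν‖ = 1) (c : ℝ) :
    ∃ (GV GW : E n → E n),
      IsD p (fun x => (1 / 2 : ℝ) * (U x - U (TwoPoint_R ν c x))) GV ∧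
      IsD p (fun x => (1 / 2 : ℝ) * (U x + U (TwoPoint_R ν c x))) GW ∧
      energy p GW + energy p GV ≤ energy p G ∧
      2 * energy p (indicator (halfspace ν c) GV) ≤ energy p GV := by
  obtain ⟨hR, hRE⟩ := TwoPoint_comp hp1 hU ν c
  have hp0 : 0 < p := by linarith
  refine ⟨fun x => (1 / 2 : ℝ) • (G x - TwoPoint_A ν (G (TwoPoint_R ν c x))),
    fun x => (1 / 2 : ℝ) • (G x + TwoPoint_A ν (G (TwoPoint_R ν c x))),
    (hU.sub hp1 hR).const_mul hp1 (1 / 2), (hU.add hp1 hR).const_mul hp1 (1 / 2), ?_, ?_⟩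
  · have hV := ((hU.sub hp1 hR).const_mul hp1 (1 / 2)).integrable_rpow hp0
    have hW := ((hU.add hp1 hR).const_mul hp1 (1 / 2)).integrable_rpow hp0
    have hUi := hU.integrable_rpow hp0
    have hRi := hR.integrable_rpow hp0
    have h1 : ∫ x, (‖(1 / 2 : ℝ) • (G x + TwoPoint_A ν (G (TwoPoint_R ν c x)))‖ ^ p +
        ‖(1 / 2 : ℝ) • (G x - TwoPoint_A ν (G (TwoPoint_R ν c x)))‖ ^ p) ≤
        ∫ x, (‖G x‖ ^ p + ‖TwoPoint_A ν (G (TwoPoint_R ν c x))‖ ^ p) / 2 :=
      integral_mono (hW.add hV) ((hUi.add hRi).div_const 2) fun x => clarkson hp2 _ _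
    rw [integral_add hW hV, integral_div, integral_add hUi hRi] at h1
    have h2 : (∫ x, ‖TwoPoint_A ν (G (TwoPoint_R ν c x))‖ ^ p) = ∫ x, ‖G x‖ ^ p := hRE
    rw [h2] at h1
    unfold energy
    linarith
  · set GV : E n → E n := fun x => (1 / 2 : ℝ) • (G x - TwoPoint_A ν (G (TwoPoint_R ν c x)))
      with hGV
    set f : E n → ℝ := fun x => ‖GV x‖ ^ p with hf
    have hfi : Integrable f := ((hU.sub hp1 hR).const_mul hp1 (1 / 2)).integrable_rpow hp0
    have hf0 : ∀ x, 0 ≤ f x := fun x => Real.rpow_nonneg (norm_nonneg _) _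
    have hfR : ∀ x, f (TwoPoint_R ν c x) = f x := by
      intro x
      have h1 : GV (TwoPoint_R ν c x) = - TwoPoint_A ν (GV x) := by
        simp only [hGV, TwoPoint_R_R hν, map_smul, map_sub, TwoPoint_A_A]
        rw [← smul_neg, neg_sub]
      simp only [hf, h1, norm_neg, LinearIsometryEquiv.norm_map]
    have hH : MeasurableSet (halfspace ν c) :=
      (isOpen_lt continuous_const (by fun_prop)).measurableSet
    have hH' : MeasurableSet {x : E n | inner ℝ x ν < c} :=
      (isOpen_lt (by fun_prop) continuous_const).measurableSet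
    have h1 : energy p (indicator (halfspace ν c) GV) = ∫ x, (halfspace ν c).indicator f x := by
      unfold energy
      congr 1
      funext x
      by_cases hx : x ∈ halfspace ν c
      · rw [indicator_of_mem hx, indicator_of_mem hx]
      · rw [indicator_of_notMem hx, indicator_of_notMem hx, norm_zero, Real.zero_rpow hp0.ne']
    have h2 : ∫ x, (halfspace ν c).indicator f x =
        ∫ x, {x : E n | inner ℝ x ν < c}.indicator f x := by
      have h3 := integral_comp_simH (TwoPoint_A ν) ((2 * c) • ν) one_pos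
        ((halfspace ν c).indicator f)
      rw [one_pow, inv_one, one_smul] at h3
      rw [← h3]
      congr 1
      funext x
      rw [one_smul]
      have h4 : (2 * c) • ν + TwoPoint_A ν x = TwoPoint_R ν c x := rfl
      rw [h4]
      by_cases hx : inner ℝ x ν < c
      · have h5 : TwoPoint_R ν c x ∈ halfspace ν c := by
          show c < inner ℝ (TwoPoint_R ν c x) ν
          rw [TwoPoint_R_inner hν]
          linarith
        have h6 : x ∈ {x : E n | inner ℝ x ν < c} := hx
        rw [indicator_of_mem h5, indicator_of_mem h6, hfR]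
      · have h5 : TwoPoint_R ν c x ∉ halfspace ν c := by
          intro h
          have h' : c < inner ℝ (TwoPoint_R ν c x) ν := h
          rw [TwoPoint_R_inner hν] at h'
          exact hx (by linarith)
        have h6 : x ∉ {x : E n | inner ℝ x ν < c} := hx
        rw [indicator_of_notMem h5, indicator_of_notMem h6]
    have h3 : ∫ x, ((halfspace ν c).indicator f x + {x : E n | inner ℝ x ν < c}.indicator f x) ≤
        ∫ x, f x := by
      refine integral_mono ((hfi.indicator hH).add (hfi.indicator hH')) hfi fun x => ?_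
      beta_reduce
      by_cases hx : c < inner ℝ x ν
      · have h5 : x ∈ halfspace ν c := hx
        have h6 : x ∉ {x : E n | inner ℝ x ν < c} := fun h => lt_asymm hx h
        rw [indicator_of_mem h5, indicator_of_notMem h6, add_zero]
      · have h5 : x ∉ halfspace ν c := hx
        rw [indicator_of_notMem h5, zero_add]
        exact indicator_le_self' (fun _ _ => hf0 _) x
    rw [integral_add (hfi.indicator hH) (hfi.indicator hH'), ← h2] at h3
    rw [h1, two_mul]
    exact h3

/-- the geometry of the two points -/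
private theorem TwoPoint_geom {n : ℕ} {a a' : E n} (haa : a ≠ a') :
    ∃ (ν m : E n), ‖ν‖ = 1 ∧ inner ℝ (a - m) ν = dist a a' / 2 ∧
      TwoPoint_R ν (inner ℝ m ν) a = a' := by
  have hD : 0 < dist a a' := dist_pos.2 haa
  have hn : ‖a - a'‖ = dist a a' := (dist_eq_norm a a').symm
  have hν : ‖(dist a a')⁻¹ • (a - a')‖ = 1 := by
    rw [norm_smul, hn, Real.norm_eq_abs, abs_of_pos (inv_pos.2 hD), inv_mul_cancel₀ hD.ne']
  have hin : inner ℝ (a - (1 / 2 : ℝ) • (a + a')) ((dist a a')⁻¹ • (a - a')) =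
      dist a a' / 2 := by
    have h1 : a - (1 / 2 : ℝ) • (a + a') = (1 / 2 : ℝ) • (a - a') := by
      module
    rw [h1, real_inner_smul_left, real_inner_smul_right, real_inner_self_eq_norm_sq, hn]
    field_simp
  refine ⟨(dist a a')⁻¹ • (a - a'), (1 / 2 : ℝ) • (a + a'), hν, hin, ?_⟩
  rw [TwoPoint_R_apply hν]
  have h2 : 2 * (inner ℝ ((1 / 2 : ℝ) • (a + a')) ((dist a a')⁻¹ • (a - a')) -
      inner ℝ a ((dist a a')⁻¹ • (a - a'))) = - dist a a' := by
    rw [← inner_sub_left, ← neg_sub a, inner_neg_left, hin]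
    ring
  rw [h2, smul_smul, neg_mul, mul_inv_cancel₀ hD.ne', neg_one_smul]
  abel

theorem two_point {n : ℕ} (hn : 2 ≤ n) {p : ℝ} (hp : (n : ℝ) < p) {e : E n} (he : ‖e‖ = 1)
    {U : E n → ℝ} {G : E n → E n} (hU : IsD p U G) {a a' : E n} (haa : a ≠ a') :
    2 * (|(U a - U a') / 2| ^ p * (dist a a' / 2) ^ ((n : ℝ) - p) * cH p e) ≤ energy p G := by
  have hn2 : (2 : ℝ) ≤ n := by exact_mod_cast hn
  have hp1 : 1 ≤ p := by linarith
  have hD : 0 < dist a a' := dist_pos.2 haa
  obtain ⟨ν, m, hν, hin, hRa⟩ := TwoPoint_geom haa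
  obtain ⟨GV, GW, hV, hW, h1, h2⟩ := TwoPoint_main hp1 (by linarith) hU hν (inner ℝ m ν)
  have h3 := isD0_half hp1 hν hV (c := inner ℝ m ν) (fun x hx => by
    rw [TwoPoint_R_fix hν hx, sub_self, mul_zero])
  have h4 := halfspace_energy_ge (by omega) hp he hν h3 (x := a) (by rw [hin]; linarith)
  have ha : a ∈ halfspace ν (inner ℝ m ν) := by
    show inner ℝ m ν < inner ℝ a ν
    have := hin
    rw [inner_sub_left] at this
    linarith
  rw [indicator_of_mem ha, hRa, hin] at h4
  have h5 : (1 / 2 : ℝ) * (U a - U a') = (U a - U a') / 2 := by ring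
  rw [h5] at h4
  have h6 := energy_nonneg p GW
  linarith

theorem two_point_eq {n : ℕ} (hn : 2 ≤ n) {p : ℝ} (hp : (n : ℝ) < p) {e : E n} (he : ‖e‖ = 1)
    {U : E n → ℝ} {G : E n → E n} (hU : IsD p U G) {a a' : E n} (haa : a ≠ a') (h1 : U a = 1)
    (h2 : U a' = -1) (hE : energy p G ≤ 2 * ((dist a a' / 2) ^ ((n : ℝ) - p) * cH p e)) (x : E n)
    (hx : dist x a ≠ dist x a') : U x ≠ 0 := by
  have hn2 : (2 : ℝ) ≤ n := by exact_mod_cast hn
  have hn1 : 1 ≤ n := by omega
  have hp1 : 1 ≤ p := by linarith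
  have hD : 0 < dist a a' := dist_pos.2 haa
  obtain ⟨ν, m, hν, hin, hRa⟩ := TwoPoint_geom haa
  obtain ⟨GV, GW, hV, hW, e1, e2⟩ := TwoPoint_main hp1 (by linarith) hU hν (inner ℝ m ν)
  set c : ℝ := inner ℝ m ν with hc
  have h3 := isD0_half hp1 hν hV (c := c) (fun x hx => by
    rw [TwoPoint_R_fix hν hx, sub_self, mul_zero])
  have h4 := halfspace_energy_ge hn1 hp he hν h3 (x := a) (by rw [hin]; linarith)
  have ha : a ∈ halfspace ν c := by
    show c < inner ℝ a ν
    have := hin
    rw [inner_sub_left] at this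
    linarith
  rw [indicator_of_mem ha, hRa, hin, h1, h2] at h4
  have h5 : |(1 / 2 : ℝ) * (1 - -1)| = 1 := by norm_num
  rw [h5, Real.one_rpow, one_mul] at h4
  have h6 := energy_nonneg p GW
  have hW0 : energy p GW = 0 := by linarith
  have hVE : energy p (indicator (halfspace ν c) GV) =
      (dist a a' / 2) ^ ((n : ℝ) - p) * cH p e := by linarith
  -- the symmetric part vanishes
  have hanti : ∀ y, U (TwoPoint_R ν c y) = - U y := by
    intro y
    obtain ⟨C, -, hM⟩ := morrey hn1 hp
    have h7 := hM _ _ hW y a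
    rw [hW0, Real.zero_rpow (by positivity), mul_zero, hRa, h1, h2] at h7
    have h8 := abs_nonpos_iff.1 h7
    linarith
  -- positivity in the half space
  obtain ⟨g', hg', hg'n⟩ := h3.isD.abs hp1
  have hmin : IsMin p (halfspace ν c) a
      (fun x => |indicator (halfspace ν c) (fun x => (1 / 2 : ℝ) * (U x - U (TwoPoint_R ν c x))) x|)
      g' := by
    refine ⟨⟨hg', fun y hy => by rw [indicator_of_notMem hy, abs_zero]⟩, ?_,
      fun u' g'' hu' hu1 => ?_⟩
    · rw [indicator_of_mem ha, hRa, h1, h2]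
      norm_num
    · have h7 : energy p g' = energy p (indicator (halfspace ν c) GV) := by
        unfold energy
        congr 1
        funext y
        rw [hg'n]
      have h8 := halfspace_energy_ge hn1 hp he hν hu' (x := a) (by rw [hin]; linarith)
      rw [hu1, abs_one, Real.one_rpow, one_mul, hin] at h8
      rw [h7, hVE]
      exact h8
  have hHo : IsOpen (halfspace ν c) := isOpen_lt continuous_const (by fun_prop)
  have hHc : IsPreconnected (halfspace ν c) := by
    apply Convex.isPreconnected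
    have h7 : halfspace ν c = {x : E n | c < (innerSL ℝ ν) x} := by
      ext y
      show c < inner ℝ y ν ↔ c < inner ℝ ν y
      rw [real_inner_comm]
    rw [h7]
    exact convex_halfSpace_gt (innerSL ℝ ν).isLinear c
  have hpos := hmin.pos hn1 hp hHo hHc ha (fun x => abs_nonneg _)
  have hH : ∀ y ∈ halfspace ν c, U y ≠ 0 := by
    intro y hy h0
    have h7 := hpos y hy
    rw [indicator_of_mem hy, hanti y, h0] at h7
    norm_num at h7
  rcases lt_trichotomy c (inner ℝ x ν) with h | h | h
  · exact hH x h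
  · exfalso
    apply hx
    have h7 := TwoPoint_R_dist ν c x a
    rw [TwoPoint_R_fix hν h.symm, hRa] at h7
    exact h7.symm
  · intro h0
    have h7 : TwoPoint_R ν c x ∈ halfspace ν c := by
      show c < inner ℝ (TwoPoint_R ν c x) ν
      rw [TwoPoint_R_inner hν]
      linarith
    apply hH _ h7
    rw [hanti, h0, neg_zero]

end HMor
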